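import Pool.Agent.H75.PolyJ.Region

/-!
Change of the numbering of a polygon: only the values at `k < n` matter, cyclic shift, reversal of
the orientation; it is enough to bound `f n` for counterclockwise polygons.
-/

namespace Pool.Agent.H75.PolyJ

open Set Filter Topology Pool.Agent.H54.Fl
open scoped Real

section congr

variable {n : ℕ} {v v' : ℕ → ℝ × ℝ}

lemma edge_congr (hn : 0 < n) (hv : ∀ k < n, v k = v' k) {i : ℕ} (hi : i < n) :
    edge n v i = edge n v' i := by
  rw [edge_eq, edge_eq, hv i hi, hv _ (nx_lt hn i)]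

lemma curve_congr (hv : ∀ k < n, v k = v' k) : curve n v = curve n v' := by
  ext p
  constructor
  · rintro ⟨i, hi, hp⟩
    exact ⟨i, hi, by rw [← edge_congr (by omega) hv hi]; exact hp⟩
  · rintro ⟨i, hi, hp⟩
    exact ⟨i, hi, by rw [edge_congr (by omega) hv hi]; exact hp⟩

lemma angSum_congr (hv : ∀ k < n, v k = v' k) (p : ℝ × ℝ) : angSum n v p = angSum n v' p := by
  unfold angSum
  apply Finset.sum_congr rfl
  intro i hi
  have hi' := Finset.mem_range.1 hi
  rw [hv i hi', hv _ (Nat.mod_lt _ (by omega))]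

lemma wind_congr (hv : ∀ k < n, v k = v' k) (p : ℝ × ℝ) : wind n v p = wind n v' p := by
  unfold wind; rw [angSum_congr hv]

lemma simple_congr (hv : ∀ k < n, v k = v' k) (h : IsSimplePolygon n v) :
    IsSimplePolygon n v' := by
  have hn := pos h
  refine ⟨h.three_le, ?_, ?_, ?_⟩
  · intro i hi
    have h1 : (i + 1) % n < n := Nat.mod_lt _ hn
    rw [← edge_congr hn hv hi, ← edge_congr hn hv h1, ← hv _ h1]
    exact h.adjacent i hi
  · intro i hi j hj h1 h2 h3
    rw [← edge_congr hn hv hi, ← edge_congr hn hv hj]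
    exact h.nonadjacent i hi j hj h1 h2 h3
  · intro i hi
    rw [← hv _ hi, ← hv _ (Nat.mod_lt _ hn), ← hv _ (Nat.mod_lt _ hn)]
    exact h.genuine i hi

lemma region_congr_curve {n n' : ℕ} {v v' : ℕ → ℝ × ℝ} (hc : curve n v = curve n' v') :
    region n v = region n' v' := by
  unfold region
  rw [hc]

lemma ccw_congr (hv : ∀ k < n, v k = v' k) (h : CCW n v) : CCW n v' := by
  obtain ⟨p, hp1, hp2⟩ := h
  exact ⟨p, by rw [← curve_congr hv]; exact hp1, by rw [← wind_congr hv]; exact hp2⟩

end congr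

/-- cyclic shift of the numbering -/
def sh (n : ℕ) (v : ℕ → ℝ × ℝ) (s : ℕ) (k : ℕ) : ℝ × ℝ := v ((s + k) % n)

section shift

variable {n : ℕ} {v : ℕ → ℝ × ℝ}

lemma sh_zero {k : ℕ} (hk : k < n) : sh n v 0 k = v k := by
  unfold sh; rw [zero_add, Nat.mod_eq_of_lt hk]

lemma sh_succ (s : ℕ) : sh n v (s + 1) = sh n (sh n v s) 1 := by
  funext k
  unfold sh
  rw [Nat.add_mod_mod]
  congr 2
  omega

lemma edge_sh_one {i : ℕ} : edge n (sh n v 1) i = edge n v (nx n i) := by
  rw [edge_eq, edge_eq]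
  unfold sh nx
  rw [Nat.add_comm 1 i, Nat.add_comm 1 ((i + 1) % n)]

lemma curve_sh_one (hn : 0 < n) : curve n (sh n v 1) = curve n v := by
  ext p
  constructor
  · rintro ⟨i, hi, hp⟩
    rw [edge_sh_one] at hp
    exact ⟨_, nx_lt hn i, hp⟩
  · rintro ⟨i, hi, hp⟩
    refine ⟨pv n i, pv_lt hn i, ?_⟩
    rw [edge_sh_one, nx_pv hi]
    exact hp

lemma angSum_sh_one (p : ℝ × ℝ) : angSum n (sh n v 1) p = angSum n v p := by
  unfold angSum
  rw [← sum_mod_eq n (fun i => ang (v i) (v ((i + 1) % n)) p)]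
  apply Finset.sum_congr rfl
  intro i _
  unfold sh
  rw [Nat.add_comm 1 i, Nat.add_comm 1 ((i + 1) % n)]

lemma simple_sh_one (h : IsSimplePolygon n v) : IsSimplePolygon n (sh n v 1) := by
  have hn := pos h
  have hsh : ∀ k, sh n v 1 k = v (nx n k) := by
    intro k; unfold sh nx; rw [Nat.add_comm]
  refine ⟨h.three_le, ?_, ?_, ?_⟩
  · intro i hi
    change edge n (sh n v 1) i ∩ edge n (sh n v 1) (nx n i) = {sh n v 1 (nx n i)}
    rw [edge_sh_one, edge_sh_one, hsh]
    exact h.adjacent _ (nx_lt hn i)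
  · intro i hi j hj h1 h2 h3
    rw [edge_sh_one, edge_sh_one]
    apply h.nonadjacent _ (nx_lt hn i) _ (nx_lt hn j)
    · intro h4; exact h1 (nx_inj hi hj h4)
    · intro h4
      exact h2 (nx_inj (nx_lt hn i) hj h4)
    · intro h4
      exact h3 (nx_inj (nx_lt hn j) hi h4)
  · intro i hi
    rw [add_two_mod, hsh, hsh, hsh]
    have := h.genuine _ (nx_lt hn i)
    rw [add_two_mod] at this
    exact this

/-- the cyclic shift of a simple polygon -/
theorem shift_all (h : IsSimplePolygon n v) (s : ℕ) : IsSimplePolygon n (sh n v s) ∧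
    curve n (sh n v s) = curve n v ∧ (∀ p, angSum n (sh n v s) p = angSum n v p) := by
  induction s with
  | zero =>
    have h0 : ∀ k < n, v k = sh n v 0 k := fun k hk => (sh_zero hk).symm
    exact ⟨simple_congr h0 h, (curve_congr h0).symm, fun p => (angSum_congr h0 p).symm⟩
  | succ s ih =>
    obtain ⟨i1, i2, i3⟩ := ih
    rw [sh_succ]
    refine ⟨simple_sh_one i1, ?_, ?_⟩
    · rw [curve_sh_one (pos h), i2]
    · intro p; rw [angSum_sh_one, i3]

lemma simple_sh (h : IsSimplePolygon n v) (s : ℕ) : IsSimplePolygon n (sh n v s) :=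
  (shift_all h s).1

lemma curve_sh (h : IsSimplePolygon n v) (s : ℕ) : curve n (sh n v s) = curve n v :=
  (shift_all h s).2.1

lemma region_sh (h : IsSimplePolygon n v) (s : ℕ) : region n (sh n v s) = region n v :=
  region_congr_curve (curve_sh h s)

lemma angSum_sh (h : IsSimplePolygon n v) (s : ℕ) (p : ℝ × ℝ) :
    angSum n (sh n v s) p = angSum n v p := (shift_all h s).2.2 p

lemma wind_sh (h : IsSimplePolygon n v) (s : ℕ) (p : ℝ × ℝ) :
    wind n (sh n v s) p = wind n v p := by
  unfold wind; rw [angSum_sh h]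

lemma inner_sh (h : IsSimplePolygon n v) (s : ℕ) : inner n (sh n v s) = inner n v := by
  unfold inner
  ext p
  simp only [mem_ofPred_eq]
  rw [curve_sh h, wind_sh h]

lemma ccw_sh (h : IsSimplePolygon n v) (s : ℕ) (hc : CCW n v) : CCW n (sh n v s) := by
  obtain ⟨p, hp1, hp2⟩ := hc
  exact ⟨p, by rw [curve_sh h]; exact hp1, by rw [wind_sh h]; exact hp2⟩

end shift

/-- reversal of the numbering -/
def rev (n : ℕ) (v : ℕ → ℝ × ℝ) (k : ℕ) : ℝ × ℝ := v (n - 1 - k)

section reversal

variable {n : ℕ} {v : ℕ → ℝ × ℝ}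

lemma rev_idx {k : ℕ} (hk : k < n) : n - 1 - nx n k = pv n (n - 1 - k) := by
  rcases nx_cases hk with ⟨h1, h2⟩ | ⟨h1, h2⟩
  · rw [h2]
    rcases pv_cases (show n - 1 - k < n by omega) with ⟨h3, h4⟩ | ⟨h3, h4⟩ <;> omega
  · rw [h2]
    rcases pv_cases (show n - 1 - k < n by omega) with ⟨h3, h4⟩ | ⟨h3, h4⟩ <;> omega

lemma edge_rev {k : ℕ} (hk : k < n) : edge n (rev n v) k = edge n v (pv n (n - 1 - k)) := by
  rw [edge_eq, edge_eq, segment_symm]
  unfold rev
  rw [rev_idx hk, nx_pv (show n - 1 - k < n by omega)]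

lemma curve_rev (n : ℕ) (v : ℕ → ℝ × ℝ) : curve n (rev n v) = curve n v := by
  ext p
  constructor
  · rintro ⟨i, hi, hp⟩
    rw [edge_rev hi] at hp
    exact ⟨_, pv_lt (by omega) _, hp⟩
  · rintro ⟨i, hi, hp⟩
    have hn : 0 < n := by omega
    have h1 := nx_lt hn i
    refine ⟨n - 1 - nx n i, by omega, ?_⟩
    rw [edge_rev (by omega)]
    have : n - 1 - (n - 1 - nx n i) = nx n i := by omega
    rw [this, pv_nx hi]
    exact hp

lemma region_rev (n : ℕ) (v : ℕ → ℝ × ℝ) : region n (rev n v) = region n v :=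
  region_congr_curve (curve_rev n v)

lemma simple_rev (h : IsSimplePolygon n v) : IsSimplePolygon n (rev n v) := by
  have hn := pos h
  refine ⟨h.three_le, ?_, ?_, ?_⟩
  · intro i hi
    change edge n (rev n v) i ∩ edge n (rev n v) (nx n i) = {rev n v (nx n i)}
    rw [edge_rev hi, edge_rev (nx_lt hn i), rev_idx hi]
    unfold rev
    rw [rev_idx hi]
    set j := pv n (n - 1 - i) with hj
    have hjn : j < n := pv_lt hn _
    have := h.adjacent (pv n j) (pv_lt hn j)
    change edge n v (pv n j) ∩ edge n v (nx n (pv n j)) = {v (nx n (pv n j))} at this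
    rw [nx_pv hjn] at this
    rw [Set.inter_comm, this]
  · intro i hi j hj h1 h2 h3
    rw [edge_rev hi, edge_rev hj]
    have hi' : n - 1 - i < n := by omega
    have hj' : n - 1 - j < n := by omega
    apply h.nonadjacent _ (pv_lt hn _) _ (pv_lt hn _)
    · intro h4
      have := congrArg (nx n) h4
      rw [nx_pv hi', nx_pv hj'] at this
      omega
    · intro h4
      change nx n (pv n (n - 1 - i)) = _ at h4
      rw [nx_pv hi', ← rev_idx hj] at h4
      apply h3
      change nx n j = i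
      have := nx_lt hn j
      omega
    · intro h4
      change nx n (pv n (n - 1 - j)) = _ at h4
      rw [nx_pv hj', ← rev_idx hi] at h4
      apply h2
      change nx n i = j
      have := nx_lt hn i
      omega
  · intro i hi
    rw [add_two_mod]
    change orient (rev n v i) (rev n v (nx n i)) (rev n v (nx n (nx n i))) ≠ 0
    unfold rev
    rw [rev_idx (nx_lt hn i), rev_idx hi]
    have hi' : n - 1 - i < n := by omega
    set j := n - 1 - i
    have := gen h (pv_lt hn (pv n j))
    rw [nx_pv (pv_lt hn j), nx_pv hi'] at this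
    intro h0
    apply this
    have e : orient (v (pv n (pv n j))) (v (pv n j)) (v j) =
      - orient (v j) (v (pv n j)) (v (pv n (pv n j))) := by unfold orient; ring
    rw [e, h0, neg_zero]

lemma ang_swap {a b p : ℝ × ℝ} (h : p ∉ segment ℝ a b) : ang b a p = - ang a b p := by
  unfold ang
  have h1 : quo b a p = (quo a b p)⁻¹ := by unfold quo; rw [inv_div]
  rw [h1, Complex.arg_inv]
  have h2 := slit_of_notMem h
  rw [Complex.mem_slitPlane_iff_arg] at h2
  rw [if_neg h2.1]

lemma angSum_rev {p : ℝ × ℝ} (hp : p ∉ curve n v) : angSum n (rev n v) p = - angSum n v p := by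
  have e1 : angSum n (rev n v) p =
      ∑ i ∈ Finset.range n, (- ang (v (pv n (n - 1 - i))) (v (nx n (pv n (n - 1 - i)))) p) := by
    unfold angSum
    apply Finset.sum_congr rfl
    intro i hi
    have hi' := Finset.mem_range.1 hi
    have h1 : n - 1 - i < n := by omega
    rw [nx_pv h1]
    change ang (rev n v i) (rev n v (nx n i)) p = _
    unfold rev
    rw [rev_idx hi', ang_swap]
    intro h2
    apply hp
    refine ⟨pv n (n - 1 - i), pv_lt (by omega) _, ?_⟩
    rw [edge_eq, nx_pv h1]; exact h2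
  rw [e1, Finset.sum_neg_distrib]
  congr 1
  unfold angSum
  apply Finset.sum_nbij' (fun i => pv n (n - 1 - i)) (fun i => n - 1 - nx n i)
  · intro i hi
    have hi' := Finset.mem_range.1 hi
    exact Finset.mem_range.2 (pv_lt (by omega) _)
  · intro i hi
    have hi' := Finset.mem_range.1 hi
    have := nx_lt (show 0 < n by omega) i
    exact Finset.mem_range.2 (by omega)
  · intro i hi
    have hi' := Finset.mem_range.1 hi
    change n - 1 - nx n (pv n (n - 1 - i)) = i
    rw [nx_pv (show n - 1 - i < n by omega)]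
    omega
  · intro i hi
    have hi' := Finset.mem_range.1 hi
    have := nx_lt (show 0 < n by omega) i
    change pv n (n - 1 - (n - 1 - nx n i)) = i
    have e : n - 1 - (n - 1 - nx n i) = nx n i := by omega
    rw [e, pv_nx hi']
  · intro i hi
    rfl

lemma wind_rev {p : ℝ × ℝ} (hp : p ∉ curve n v) : wind n (rev n v) p = - wind n v p := by
  have h1 := angSum_eq hp
  have hp' : p ∉ curve n (rev n v) := by rw [curve_rev]; exact hp
  have h2 := angSum_eq hp'
  rw [angSum_rev hp, h1] at h2
  have h3 : (2 * π) * (wind n (rev n v) p : ℝ) = (2 * π) * (-(wind n v p : ℝ)) := by linarith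
  have h4 := mul_left_cancel₀ (by positivity : (2 * π) ≠ 0) h3
  exact_mod_cast h4

/-- a simple polygon or its reversal is counterclockwise -/
lemma ccw_or_rev (h : IsSimplePolygon n v) : CCW n v ∨ CCW n (rev n v) := by
  rcases wL_eq h with h1 | h1
  · right
    obtain ⟨p, hp⟩ := inner_nonempty h
    rw [inner_eq h] at hp
    obtain ⟨hp1, hp2⟩ := hp
    refine ⟨p, by rw [curve_rev]; exact hp1, ?_⟩
    rw [wind_rev hp1, hp2, h1]; norm_num
  · left; exact ccw_of_wL h h1

/-- it is enough to bound `f n` for counterclockwise polygons -/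
theorem f_le_of_ccw {K : ℕ∞} (H : ∀ v : ℕ → ℝ × ℝ, IsSimplePolygon n v → CCW n v →
    ∃ (S : Finset ℕ) (N : ℕ → ℝ × ℝ), IsLightSet n v S N ∧ Illuminates n v S N ∧
      (S.card : ℕ∞) ≤ K) : f n ≤ K := by
  unfold f
  apply sInf_le
  intro v hv
  rcases ccw_or_rev hv with h1 | h1
  · exact H v hv h1
  · obtain ⟨S, N, hS1, hS2, hS3⟩ := H (rev n v) (simple_rev hv) h1
    refine ⟨S.image (fun k => n - 1 - k), fun k => N (n - 1 - k), ?_, ?_, ?_⟩
    · intro i hi
      obtain ⟨k, hk, rfl⟩ := Finset.mem_image.1 hi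
      obtain ⟨h2, h3, h4⟩ := hS1 k hk
      have e : n - 1 - (n - 1 - k) = k := by omega
      simp only [e]
      refine ⟨by omega, h3, ?_⟩
      rw [region_rev] at h4
      exact h4
    · intro q hq
      rw [← region_rev] at hq
      obtain ⟨k, hk, h5, h6⟩ := hS2 q hq
      obtain ⟨h2, h3, h4⟩ := hS1 k hk
      have e : n - 1 - (n - 1 - k) = k := by omega
      refine ⟨n - 1 - k, Finset.mem_image.2 ⟨k, hk, rfl⟩, ?_⟩
      simp only [e]
      rw [region_rev] at h6
      exact ⟨h5, h6⟩
    · exact le_trans (by exact_mod_cast Finset.card_image_le) hS3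

end reversal

end Pool.Agent.H75.PolyJ
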