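import Pool.Agent.H75.PolyJ.Sides

/-!
The Jordan curve theorem for simple polygons: the winding number takes one value `wL` on the left
side and the value `wL - 1` on the right side, the two sides are connected, and one of the two
values is `0`.
-/

namespace Pool.Agent.H75.PolyJ

open Set Filter Topology Pool.Agent.H54.Fl
open scoped Real

section simple

variable {n : ℕ} {v : ℕ → ℝ × ℝ}

lemma curve_eq_biUnion (n : ℕ) (v : ℕ → ℝ × ℝ) : curve n v = ⋃ i ∈ Set.Iio n, edge n v i := by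
  ext p; simp [curve]

lemma isConnected_curve (hn : 0 < n) (v : ℕ → ℝ × ℝ) : IsConnected (curve n v) := by
  refine ⟨⟨v 0, 0, hn, left_mem_segment ℝ _ _⟩, ?_⟩
  rw [curve_eq_biUnion]
  apply IsPreconnected.biUnion_of_chain Set.ordConnected_Iio
  · intro i _
    rw [edge_eq]
    exact (convex_segment _ _).isPreconnected
  · intro i hi hi'
    have h1 : nx n i = i + 1 := Nat.mod_eq_of_lt hi'
    refine ⟨v (i + 1), ?_, ?_⟩
    · rw [edge_eq, h1]; exact right_mem_segment ℝ _ _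
    · exact left_mem_segment ℝ _ _

variable (h : IsSimplePolygon n v)
include h

/-- the local sides are unique -/
lemma isLoc_unique {x : ℝ × ℝ} {L R L' R' : ℝ × ℝ → Prop} (h1 : IsLoc n v x L R)
    (h2 : IsLoc n v x L' R') : L = L' ∧ R = R' := by
  cases h1 with
  | E i hi hx h3 h4 =>
    cases h2 with
    | E k hk hxk h5 h6 =>
      by_cases hik : i = k
      · subst hik; exact ⟨rfl, rfl⟩
      · rcases edge_inter h hi hk hik hx hxk with ⟨-, h7⟩ | ⟨-, h7⟩
        · exact absurd h7 h5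
        · exact absurd h7 h3
    | V k hk hxk =>
      exfalso
      subst hxk
      rcases vertex_mem_edge h hk hi hx with h7 | h7
      · exact h3 (by rw [h7])
      · exact h4 (by rw [h7, nx_pv hk])
  | V j hj hx =>
    cases h2 with
    | E k hk hxk h5 h6 =>
      exfalso
      subst hx
      rcases vertex_mem_edge h hj hk hxk with h7 | h7
      · exact h5 (by rw [h7])
      · exact h6 (by rw [h7, nx_pv hj])
    | V k hk hxk =>
      have : j = k := vertex_inj h hj hk (by rw [← hx, hxk])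
      subst this
      exact ⟨rfl, rfl⟩

/-- the two collars -/
theorem collars : ∃ (r : ℝ × ℝ → ℝ) (L R : ℝ × ℝ → ℝ × ℝ → Prop),
    (∀ x ∈ curve n v, 0 < r x ∧ IsLoc n v x (L x) (R x) ∧
      ∀ q ∈ Metric.ball x (r x), (q ∉ curve n v ↔ (L x q ∨ R x q)) ∧ ¬ (L x q ∧ R x q)) ∧
    IsPreconnected (⋃ x ∈ curve n v, Metric.ball x (r x) ∩ {q | L x q}) ∧
    IsPreconnected (⋃ x ∈ curve n v, Metric.ball x (r x) ∩ {q | R x q}) := by
  have hex : ∀ x : ℝ × ℝ, ∃ (r : ℝ) (L R : ℝ × ℝ → Prop), x ∈ curve n v →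
      0 < r ∧ IsLoc n v x L R ∧
      ∀ q ∈ Metric.ball x r, (q ∉ curve n v ↔ (L q ∨ R q)) ∧ ¬ (L q ∧ R q) := by
    intro x
    by_cases hx : x ∈ curve n v
    · obtain ⟨L, R, hl⟩ := exists_isLoc (pos h) hx
      obtain ⟨r, hr, hb⟩ := Metric.eventually_nhds_iff_ball.1 (loc_sides h hl)
      exact ⟨r, L, R, fun _ => ⟨hr, hl, hb⟩⟩
    · exact ⟨1, fun _ => True, fun _ => True, fun h1 => absurd h1 hx⟩
  choose r L R hrLR using hex
  refine ⟨r, L, R, hrLR, ?_, ?_⟩
  · have key : ∀ x ∈ curve n v, ∀ᶠ y in 𝓝[curve n v] x,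
        Relation.ReflTransGen (fun i j : ℝ × ℝ =>
          ((Metric.ball i (r i) ∩ {q | L i q}) ∩ (Metric.ball j (r j) ∩ {q | L j q})).Nonempty ∧
            i ∈ curve n v) x y ∧
        Relation.ReflTransGen (fun i j : ℝ × ℝ =>
          ((Metric.ball i (r i) ∩ {q | L i q}) ∩ (Metric.ball j (r j) ∩ {q | L j q})).Nonempty ∧
            i ∈ curve n v) y x := by
      intro x hx
      obtain ⟨hr, hl, -⟩ := hrLR x hx
      have hb : ∀ᶠ y in 𝓝[curve n v] x, y ∈ Metric.ball x (r x) :=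
        nhdsWithin_le_nhds (Metric.ball_mem_nhds x hr)
      filter_upwards [loc_nbr h hl, hb, self_mem_nhdsWithin] with y hy1 hy2 hy3
      obtain ⟨hr', hl', -⟩ := hrLR y hy3
      have hf := (hy1 _ _ hl').1
      have hf2 := hf.and_eventually ((Metric.isOpen_ball.mem_nhds hy2 :
        Metric.ball x (r x) ∈ 𝓝 y))
      have hf3 := hf2.and_eventually (Metric.ball_mem_nhds y hr')
      obtain ⟨q, ⟨⟨hq1, hq2⟩, hq3⟩, hq4⟩ := hf3.exists
      exact ⟨Relation.ReflTransGen.single ⟨⟨q, ⟨hq3, hq1⟩, ⟨hq4, hq2⟩⟩, hx⟩,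
        Relation.ReflTransGen.single ⟨⟨q, ⟨hq4, hq2⟩, ⟨hq3, hq1⟩⟩, hy3⟩⟩
    apply IsPreconnected.biUnion_of_reflTransGen
    · intro x hx
      obtain ⟨hr, hl, -⟩ := hrLR x hx
      exact (loc_conn h hl hr).1
    · intro x hx y hy
      exact (isConnected_curve (pos h) v).isPreconnected.induction₂' _ key
        (fun a b c _ _ _ hab hbc => hab.trans hbc) hx hy
  · have key : ∀ x ∈ curve n v, ∀ᶠ y in 𝓝[curve n v] x,
        Relation.ReflTransGen (fun i j : ℝ × ℝ =>
          ((Metric.ball i (r i) ∩ {q | R i q}) ∩ (Metric.ball j (r j) ∩ {q | R j q})).Nonempty ∧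
            i ∈ curve n v) x y ∧
        Relation.ReflTransGen (fun i j : ℝ × ℝ =>
          ((Metric.ball i (r i) ∩ {q | R i q}) ∩ (Metric.ball j (r j) ∩ {q | R j q})).Nonempty ∧
            i ∈ curve n v) y x := by
      intro x hx
      obtain ⟨hr, hl, -⟩ := hrLR x hx
      have hb : ∀ᶠ y in 𝓝[curve n v] x, y ∈ Metric.ball x (r x) :=
        nhdsWithin_le_nhds (Metric.ball_mem_nhds x hr)
      filter_upwards [loc_nbr h hl, hb, self_mem_nhdsWithin] with y hy1 hy2 hy3
      obtain ⟨hr', hl', -⟩ := hrLR y hy3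
      have hf := (hy1 _ _ hl').2
      have hf2 := hf.and_eventually ((Metric.isOpen_ball.mem_nhds hy2 :
        Metric.ball x (r x) ∈ 𝓝 y))
      have hf3 := hf2.and_eventually (Metric.ball_mem_nhds y hr')
      obtain ⟨q, ⟨⟨hq1, hq2⟩, hq3⟩, hq4⟩ := hf3.exists
      exact ⟨Relation.ReflTransGen.single ⟨⟨q, ⟨hq3, hq1⟩, ⟨hq4, hq2⟩⟩, hx⟩,
        Relation.ReflTransGen.single ⟨⟨q, ⟨hq4, hq2⟩, ⟨hq3, hq1⟩⟩, hy3⟩⟩
    apply IsPreconnected.biUnion_of_reflTransGen
    · intro x hx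
      obtain ⟨hr, hl, -⟩ := hrLR x hx
      exact (loc_conn h hl hr).2
    · intro x hx y hy
      exact (isConnected_curve (pos h) v).isPreconnected.induction₂' _ key
        (fun a b c _ _ _ hab hbc => hab.trans hbc) hx hy

end simple

/-- a point off a nonempty compact set is joined to it by a half-open segment off the set -/
lemma exists_nearest {K : Set (ℝ × ℝ)} (hK : IsCompact K) (hne : K.Nonempty) {p : ℝ × ℝ}
    (_hp : p ∉ K) : ∃ x ∈ K, ∀ t : ℝ, 0 ≤ t → t < 1 → p + t • (x - p) ∉ K := by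
  obtain ⟨x, hx, hmin⟩ := hK.exists_infDist_eq_dist hne p
  refine ⟨x, hx, ?_⟩
  intro t ht0 ht1 hm
  have h1 : Metric.infDist p K ≤ dist p (p + t • (x - p)) := Metric.infDist_le_dist_of_mem hm
  rw [hmin] at h1
  have h2 : dist p (p + t • (x - p)) = t * dist p x := by
    rw [dist_eq_norm, dist_eq_norm]
    have : p - (p + t • (x - p)) = t • (p - x) := by
      rw [← sub_sub, sub_self, zero_sub, ← smul_neg, neg_sub]
    rw [this, norm_smul, Real.norm_of_nonneg ht0]
  rw [h2] at h1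
  have h3 : 0 < dist p x := by
    rw [dist_pos]
    rintro rfl
    exact _hp hx
  nlinarith

/-- the argument of the quotient tends to `π` from the left and to `-π` from the right -/
lemma tendsto_ang_left {a b x : ℝ × ℝ} (hx : x ∈ segment ℝ a b) (ha : x ≠ a) (hb : x ≠ b) :
    Tendsto (ang a b) (𝓝[{q | 0 < orient a b q}] x) (𝓝 π) ∧
    Tendsto (ang a b) (𝓝[{q | orient a b q < 0}] x) (𝓝 (-π)) := by
  have hN : ∀ {q : ℝ × ℝ}, q ≠ a → 0 < Complex.normSq (cx a - cx q) := fun hq =>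
    normSq_pos (Ne.symm hq)
  have him : (quo a b x).im = 0 := by
    rw [quo_im, orient_of_mem hx, zero_div]
  have hre : (quo a b x).re < 0 := by
    rcases mem_segment_iff.1 hx with h | h
    · exact absurd h ha
    · rw [Complex.mem_slitPlane_iff, not_or, not_lt, not_not] at h
      rcases lt_or_eq_of_le h.1 with h1 | h1
      · exact h1
      · exfalso
        have h2 : quo a b x = 0 := Complex.ext h1 h.2
        unfold quo at h2
        rcases div_eq_zero_iff.1 h2 with h3 | h3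
        · exact cx_sub_ne (Ne.symm hb) h3
        · exact cx_sub_ne (Ne.symm ha) h3
  have hc : ContinuousAt (fun q => quo a b q) x := by
    have h1 : Continuous (fun q : ℝ × ℝ => (((a, b), q) : ((ℝ × ℝ) × (ℝ × ℝ)) × (ℝ × ℝ))) := by
      fun_prop
    exact ContinuousAt.comp (f := fun q : ℝ × ℝ => (((a, b), q) : ((ℝ × ℝ) × (ℝ × ℝ)) × (ℝ × ℝ)))
        (g := fun y : ((ℝ × ℝ) × (ℝ × ℝ)) × (ℝ × ℝ) => quo y.1.1 y.1.2 y.2)
        (continuousAt_quo ha) h1.continuousAt
  have hqa : ∀ᶠ q in 𝓝 x, q ≠ a := isOpen_ne.mem_nhds ha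
  constructor
  · have h1 := Complex.tendsto_arg_nhdsWithin_im_nonneg_of_re_neg_of_im_zero hre him
    have h2 : Tendsto (fun q => quo a b q) (𝓝[{q | 0 < orient a b q}] x)
        (𝓝[{ z : ℂ | 0 ≤ z.im }] (quo a b x)) := by
      apply tendsto_nhdsWithin_of_tendsto_nhds_of_eventually_within
      · exact hc.tendsto.mono_left nhdsWithin_le_nhds
      · filter_upwards [self_mem_nhdsWithin, nhdsWithin_le_nhds hqa] with q hq hq2
        have : 0 < orient a b q := hq
        show 0 ≤ (quo a b q).im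
        rw [quo_im]
        exact div_nonneg this.le (hN hq2).le
    exact h1.comp h2
  · have h1 := Complex.tendsto_arg_nhdsWithin_im_neg_of_re_neg_of_im_zero hre him
    have h2 : Tendsto (fun q => quo a b q) (𝓝[{q | orient a b q < 0}] x)
        (𝓝[{ z : ℂ | z.im < 0 }] (quo a b x)) := by
      apply tendsto_nhdsWithin_of_tendsto_nhds_of_eventually_within
      · exact hc.tendsto.mono_left nhdsWithin_le_nhds
      · filter_upwards [self_mem_nhdsWithin, nhdsWithin_le_nhds hqa] with q hq hq2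
        have : orient a b q < 0 := hq
        show (quo a b q).im < 0
        rw [quo_im]
        exact div_neg_of_neg_of_pos this (hN hq2)
    exact h1.comp h2

lemma continuousAt_ang' {a b x : ℝ × ℝ} (hx : x ∉ segment ℝ a b) : ContinuousAt (ang a b) x := by
  have h1 : Continuous (fun q : ℝ × ℝ => (((a, b), q) : ((ℝ × ℝ) × (ℝ × ℝ)) × (ℝ × ℝ))) := by
    fun_prop
  exact ContinuousAt.comp (f := fun q : ℝ × ℝ => (((a, b), q) : ((ℝ × ℝ) × (ℝ × ℝ)) × (ℝ × ℝ)))
    (g := fun y : ((ℝ × ℝ) × (ℝ × ℝ)) × (ℝ × ℝ) => ang y.1.1 y.1.2 y.2)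
    (continuousAt_ang hx) h1.continuousAt

section simple

variable {n : ℕ} {v : ℕ → ℝ × ℝ}

/-- the jump of the winding number across an edge (only `x` must be on no other edge) -/
theorem jump {i : ℕ} (hi : i < n) {x : ℝ × ℝ} (hx : x ∈ edge n v i) (h1 : x ≠ v i)
    (h2 : x ≠ v (nx n i)) (hk : ∀ k < n, k ≠ i → x ∉ edge n v k)
    (hF : ∃ᶠ q in 𝓝 x, q ∉ curve n v ∧ 0 < orient (v i) (v (nx n i)) q) :
    ∃ c : ℤ, ∀ᶠ q in 𝓝 x, q ∉ curve n v →
      (0 < orient (v i) (v (nx n i)) q → wind n v q = c) ∧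
      (orient (v i) (v (nx n i)) q < 0 → wind n v q = c - 1) := by
  set a := v i
  set b := v (nx n i)
  obtain ⟨hL, hR⟩ := tendsto_ang_left hx h1 h2
  set S := ∑ k ∈ (Finset.range n).erase i, ang (v k) (v (nx n k)) x with hS
  have hrest : Tendsto (fun q => ∑ k ∈ (Finset.range n).erase i, ang (v k) (v (nx n k)) q)
      (𝓝 x) (𝓝 S) := by
    apply tendsto_finsetSum
    intro k hk'
    rw [Finset.mem_erase, Finset.mem_range] at hk'
    exact (continuousAt_ang' (hk k hk'.2 hk'.1)).tendsto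
  have hsum : ∀ q, angSum n v q = ang a b q +
      ∑ k ∈ (Finset.range n).erase i, ang (v k) (v (nx n k)) q := by
    intro q
    unfold angSum
    exact (Finset.add_sum_erase (Finset.range n) (fun k => ang (v k) (v (nx n k)) q)
      (Finset.mem_range.2 hi)).symm
  have hL2 : Tendsto (angSum n v) (𝓝[{q | 0 < orient a b q}] x) (𝓝 (π + S)) := by
    have := hL.add (hrest.mono_left nhdsWithin_le_nhds)
    exact this.congr fun q => (hsum q).symm
  have hR2 : Tendsto (angSum n v) (𝓝[{q | orient a b q < 0}] x) (𝓝 (-π + S)) := by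
    have := hR.add (hrest.mono_left nhdsWithin_le_nhds)
    exact this.congr fun q => (hsum q).symm
  have hL3 : ∀ᶠ q in 𝓝 x, 0 < orient a b q → |angSum n v q - (π + S)| < 1 := by
    have := Metric.tendsto_nhds.1 hL2 1 one_pos
    rw [eventually_nhdsWithin_iff] at this
    filter_upwards [this] with q hq hq'
    have := hq hq'
    rwa [Real.dist_eq] at this
  have hR3 : ∀ᶠ q in 𝓝 x, orient a b q < 0 → |angSum n v q - (-π + S)| < 1 := by
    have := Metric.tendsto_nhds.1 hR2 1 one_pos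
    rw [eventually_nhdsWithin_iff] at this
    filter_upwards [this] with q hq hq'
    have := hq hq'
    rwa [Real.dist_eq] at this
  obtain ⟨q0, ⟨hq0, hq0'⟩, hq0L⟩ := (hF.and_eventually hL3).exists
  refine ⟨wind n v q0, ?_⟩
  have hq0'' := hq0L hq0'
  rw [angSum_eq hq0] at hq0''
  filter_upwards [hL3, hR3] with q hq1 hq2 hq
  constructor
  · intro hp
    have h3 := hq1 hp
    rw [angSum_eq hq] at h3
    exact int_eq_of_near h3 hq0''
  · intro hp
    have h3 := hq2 hp
    rw [angSum_eq hq] at h3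
    have h4 : |2 * π * ((wind n v q + 1 : ℤ) : ℝ) - (π + S)| < 1 := by
      have e : 2 * π * ((wind n v q + 1 : ℤ) : ℝ) - (π + S) =
          2 * π * (wind n v q : ℝ) - (-π + S) := by push_cast; ring
      rw [e]; exact h3
    have := int_eq_of_near h4 hq0''
    omega

variable (h : IsSimplePolygon n v)
include h

/-- **Jordan curve theorem for simple polygons**, in terms of the winding number -/
theorem jordan_aux : ∃ c : ℤ,
    (∀ x ∈ curve n v, ∀ L R, IsLoc n v x L R →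
      ∀ᶠ q in 𝓝 x, (L q → q ∉ curve n v ∧ wind n v q = c) ∧
        (R q → q ∉ curve n v ∧ wind n v q = c - 1)) ∧
    (∀ p, p ∉ curve n v → wind n v p = c ∨ wind n v p = c - 1) ∧
    IsPreconnected {p | p ∉ curve n v ∧ wind n v p = c} ∧
    IsPreconnected {p | p ∉ curve n v ∧ wind n v p = c - 1} := by
  obtain ⟨r, L, R, hrLR, hUL, hUR⟩ := collars h
  set UL := ⋃ x ∈ curve n v, Metric.ball x (r x) ∩ {q | L x q} with hULd
  set UR := ⋃ x ∈ curve n v, Metric.ball x (r x) ∩ {q | R x q} with hURd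
  have dL : Disjoint UL (curve n v) := by
    rw [Set.disjoint_left]
    intro q hq
    rw [hULd, Set.mem_iUnion₂] at hq
    obtain ⟨x, hx, hq1, hq2⟩ := hq
    exact (((hrLR x hx).2.2 q hq1).1).2 (Or.inl hq2)
  have dR : Disjoint UR (curve n v) := by
    rw [Set.disjoint_left]
    intro q hq
    rw [hURd, Set.mem_iUnion₂] at hq
    obtain ⟨x, hx, hq1, hq2⟩ := hq
    exact (((hrLR x hx).2.2 q hq1).1).2 (Or.inr hq2)
  -- the midpoint of edge 0
  have h0 : 0 < n := pos h
  set x0 : ℝ × ℝ := (1 / 2 : ℝ) • v 0 + (1 / 2 : ℝ) • v (nx n 0) with hx0d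
  have hne := edge_nondeg h h0
  have hx0 : x0 ∈ edge n v 0 := ⟨1 / 2, 1 / 2, by norm_num, by norm_num, by norm_num, rfl⟩
  have hx01 : x0 ≠ v 0 := by
    intro he
    apply hne
    have h1 := congrArg Prod.fst he
    have h2 := congrArg Prod.snd he
    simp only [hx0d, Prod.fst_add, Prod.smul_fst, Prod.snd_add, Prod.smul_snd, smul_eq_mul] at h1 h2
    ext <;> linarith
  have hx02 : x0 ≠ v (nx n 0) := by
    intro he
    apply hne
    have h1 := congrArg Prod.fst he
    have h2 := congrArg Prod.snd he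
    simp only [hx0d, Prod.fst_add, Prod.smul_fst, Prod.snd_add, Prod.smul_snd, smul_eq_mul] at h1 h2
    ext <;> linarith
  have hx0c : x0 ∈ curve n v := ⟨0, h0, hx0⟩
  have hk : ∀ k < n, k ≠ 0 → x0 ∉ edge n v k := by
    intro k hk hki hxk
    rcases edge_inter h h0 hk (Ne.symm hki) hx0 hxk with ⟨h3, h4⟩ | ⟨h3, h4⟩
    · exact hx02 (by rw [h3]; exact h4)
    · exact hx01 h4
  have hE := IsLoc.E (n := n) (v := v) (x := x0) 0 h0 hx0 hx01 hx02
  have hfr := loc_freq h hE
  have hsd := loc_sides h hE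
  have hF : ∃ᶠ q in 𝓝 x0, q ∉ curve n v ∧ 0 < orient (v 0) (v (nx n 0)) q := by
    refine (hfr.1.and_eventually hsd).mono ?_
    rintro q ⟨hq, hq1, -⟩
    exact ⟨hq1.2 (Or.inl hq), hq⟩
  have hG : ∃ᶠ q in 𝓝 x0, q ∉ curve n v ∧ orient (v 0) (v (nx n 0)) q < 0 := by
    refine (hfr.2.and_eventually hsd).mono ?_
    rintro q ⟨hq, hq1, -⟩
    exact ⟨hq1.2 (Or.inr hq), hq⟩
  obtain ⟨c, hc⟩ := jump h0 hx0 hx01 hx02 hk hF
  obtain ⟨hr0, hl0, hs0⟩ := hrLR x0 hx0c
  obtain ⟨eL, eR⟩ := isLoc_unique h hE hl0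
  -- the values on the collars
  have hL0 : ∃ q ∈ UL, wind n v q = c := by
    obtain ⟨q, ⟨⟨hq1, hq2⟩, hq3⟩, hq4⟩ :=
      ((hF.and_eventually hc).and_eventually (Metric.ball_mem_nhds x0 hr0)).exists
    refine ⟨q, ?_, (hq3 hq1).1 hq2⟩
    rw [hULd, Set.mem_iUnion₂]
    refine ⟨x0, hx0c, hq4, ?_⟩
    show L x0 q
    rw [← eL]
    exact hq2
  have hR0 : ∃ q ∈ UR, wind n v q = c - 1 := by
    obtain ⟨q, ⟨⟨hq1, hq2⟩, hq3⟩, hq4⟩ :=
      ((hG.and_eventually hc).and_eventually (Metric.ball_mem_nhds x0 hr0)).exists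
    refine ⟨q, ?_, (hq3 hq1).2 hq2⟩
    rw [hURd, Set.mem_iUnion₂]
    refine ⟨x0, hx0c, hq4, ?_⟩
    show R x0 q
    rw [← eR]
    exact hq2
  have hLc : ∀ q ∈ UL, wind n v q = c := by
    obtain ⟨q0, hq0, hq0'⟩ := hL0
    intro q hq
    rw [← hq0']
    exact wind_const hUL dL hq hq0
  have hRc : ∀ q ∈ UR, wind n v q = c - 1 := by
    obtain ⟨q0, hq0, hq0'⟩ := hR0
    intro q hq
    rw [← hq0']
    exact wind_const hUR dR hq hq0
  -- joining a point to the collars
  have hjoin : ∀ p, p ∉ curve n v → ∃ S : Set (ℝ × ℝ), IsPreconnected S ∧ p ∈ S ∧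
      Disjoint S (curve n v) ∧ ((S ∩ UL).Nonempty ∨ (S ∩ UR).Nonempty) := by
    intro p hp
    obtain ⟨x, hx, hseg⟩ := exists_nearest (isCompact_curve n v)
      (isConnected_curve h0 v).nonempty hp
    obtain ⟨hr, hl, hs⟩ := hrLR x hx
    refine ⟨(fun t : ℝ => p + t • (x - p)) '' Set.Ico 0 1, ?_, ⟨0, ⟨le_rfl, one_pos⟩, by simp⟩,
      ?_, ?_⟩
    · apply isPreconnected_Ico.image
      fun_prop
    · rw [Set.disjoint_left]
      rintro q ⟨t, ht, rfl⟩
      exact hseg t ht.1 ht.2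
    · have hcont : Continuous (fun t : ℝ => p + t • (x - p)) := by fun_prop
      have hlim : Tendsto (fun t : ℝ => p + t • (x - p)) (𝓝[<] (1 : ℝ)) (𝓝 x) := by
        have := hcont.tendsto 1
        rw [one_smul, add_sub_cancel] at this
        exact this.mono_left nhdsWithin_le_nhds
      have h1 : ∀ᶠ t in 𝓝[<] (1 : ℝ), p + t • (x - p) ∈ Metric.ball x (r x) :=
        hlim.eventually (Metric.ball_mem_nhds x hr)
      have h2 : ∀ᶠ t in 𝓝[<] (1 : ℝ), t ∈ Set.Ico (0 : ℝ) 1 :=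
        Ico_mem_nhdsLT one_pos
      obtain ⟨t, ht1, ht2⟩ := (h1.and h2).exists
      have hoff := hseg t ht2.1 ht2.2
      rcases ((hs _ ht1).1).1 hoff with h3 | h3
      · left
        refine ⟨p + t • (x - p), ⟨t, ht2, rfl⟩, ?_⟩
        rw [hULd, Set.mem_iUnion₂]
        exact ⟨x, hx, ht1, h3⟩
      · right
        refine ⟨p + t • (x - p), ⟨t, ht2, rfl⟩, ?_⟩
        rw [hURd, Set.mem_iUnion₂]
        exact ⟨x, hx, ht1, h3⟩
  have hval : ∀ p, p ∉ curve n v → wind n v p = c ∨ wind n v p = c - 1 := by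
    intro p hp
    obtain ⟨S, hS1, hS2, hS3, ⟨q, hq1, hq2⟩ | ⟨q, hq1, hq2⟩⟩ := hjoin p hp
    · left; rw [wind_const hS1 hS3 hS2 hq1, hLc q hq2]
    · right; rw [wind_const hS1 hS3 hS2 hq1, hRc q hq2]
  refine ⟨c, ?_, hval, ?_, ?_⟩
  · intro x hx L' R' hl'
    obtain ⟨hr, hl, hs⟩ := hrLR x hx
    obtain ⟨eL', eR'⟩ := isLoc_unique h hl' hl
    filter_upwards [Metric.ball_mem_nhds x hr] with q hq
    constructor
    · intro hq'
      rw [eL'] at hq'
      have : q ∈ UL := by rw [hULd, Set.mem_iUnion₂]; exact ⟨x, hx, hq, hq'⟩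
      exact ⟨Set.disjoint_left.1 dL this, hLc q this⟩
    · intro hq'
      rw [eR'] at hq'
      have : q ∈ UR := by rw [hURd, Set.mem_iUnion₂]; exact ⟨x, hx, hq, hq'⟩
      exact ⟨Set.disjoint_left.1 dR this, hRc q this⟩
  · obtain ⟨q0, hq0, hq0'⟩ := hL0
    apply isPreconnected_of_forall q0
    rintro p ⟨hp1, hp2⟩
    obtain ⟨S, hS1, hS2, hS3, hS4⟩ := hjoin p hp1
    have hS5 : (S ∩ UL).Nonempty := by
      rcases hS4 with hS4 | ⟨q, hq1, hq2⟩
      · exact hS4
      · exfalso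
        have := wind_const hS1 hS3 hS2 hq1
        rw [hp2, hRc q hq2] at this
        omega
    obtain ⟨q, hq1, hq2⟩ := hS5
    refine ⟨S ∪ UL, ?_, Or.inr hq0, Or.inl hS2, hS1.union q hq1 hq2 hUL⟩
    rintro z (hz | hz)
    · exact ⟨Set.disjoint_left.1 hS3 hz, by rw [wind_const hS1 hS3 hz hS2, hp2]⟩
    · exact ⟨Set.disjoint_left.1 dL hz, hLc z hz⟩
  · obtain ⟨q0, hq0, hq0'⟩ := hR0
    apply isPreconnected_of_forall q0
    rintro p ⟨hp1, hp2⟩
    obtain ⟨S, hS1, hS2, hS3, hS4⟩ := hjoin p hp1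
    have hS5 : (S ∩ UR).Nonempty := by
      rcases hS4 with ⟨q, hq1, hq2⟩ | hS4
      · exfalso
        have := wind_const hS1 hS3 hS2 hq1
        rw [hp2, hLc q hq2] at this
        omega
      · exact hS4
    obtain ⟨q, hq1, hq2⟩ := hS5
    refine ⟨S ∪ UR, ?_, Or.inr hq0, Or.inl hS2, hS1.union q hq1 hq2 hUR⟩
    rintro z (hz | hz)
    · exact ⟨Set.disjoint_left.1 hS3 hz, by rw [wind_const hS1 hS3 hz hS2, hp2]⟩
    · exact ⟨Set.disjoint_left.1 dR hz, hRc z hz⟩

/-- the value of the winding number on the left side -/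
noncomputable def wL : ℤ := (jordan_aux h).choose

lemma wL_spec : (∀ x ∈ curve n v, ∀ L R, IsLoc n v x L R →
      ∀ᶠ q in 𝓝 x, (L q → q ∉ curve n v ∧ wind n v q = wL h) ∧
        (R q → q ∉ curve n v ∧ wind n v q = wL h - 1)) ∧
    (∀ p, p ∉ curve n v → wind n v p = wL h ∨ wind n v p = wL h - 1) ∧
    IsPreconnected {p | p ∉ curve n v ∧ wind n v p = wL h} ∧
    IsPreconnected {p | p ∉ curve n v ∧ wind n v p = wL h - 1} := (jordan_aux h).choose_spec

omit h in
lemma exists_far (n : ℕ) (v : ℕ → ℝ × ℝ) : ∃ p, p ∉ curve n v ∧ wind n v p = 0 := (wind_far n v).exists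

lemma wL_eq : wL h = 0 ∨ wL h = 1 := by
  obtain ⟨p, hp1, hp2⟩ := exists_far n v
  rcases (wL_spec h).2.1 p hp1 with h1 | h1 <;> omega

/-- the set where the winding number vanishes is connected -/
lemma preconn_zero : IsPreconnected {p | p ∉ curve n v ∧ wind n v p = 0} := by
  rcases wL_eq h with h1 | h1
  · have := (wL_spec h).2.2.1
    rwa [h1] at this
  · have := (wL_spec h).2.2.2
    rwa [h1] at this

/-- **the region** is the curve together with the points of nonzero winding number -/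
theorem mem_region_iff {p : ℝ × ℝ} :
    p ∈ region n v ↔ p ∈ curve n v ∨ wind n v p ≠ 0 := by
  constructor
  · intro hp
    by_contra hcon
    push Not at hcon
    obtain ⟨hpc, hp0⟩ := hcon
    have hb := hp {p | p ∉ curve n v ∧ wind n v p = 0}
      ⟨⟨p, hpc, hp0⟩, preconn_zero h⟩ ⟨hpc, hp0⟩ (by
        rw [Set.disjoint_left]
        rintro q ⟨hq, -⟩
        exact hq)
    have hfar : {p | p ∉ curve n v ∧ wind n v p = 0} ∈ cocompact (ℝ × ℝ) := wind_far n v
    rw [← Metric.cobounded_eq_cocompact] at hfar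
    have hb2 : ({p | p ∉ curve n v ∧ wind n v p = 0} : Set (ℝ × ℝ))ᶜ ∈
        Bornology.cobounded (ℝ × ℝ) := Bornology.isBounded_def.1 hb
    have := Filter.inter_mem hfar hb2
    rw [Set.inter_compl_self] at this
    have hne : (Bornology.cobounded (ℝ × ℝ)).NeBot := inferInstance
    exact (Filter.empty_notMem _) this
  · rintro hp S hS hpS hd
    by_cases hpc : p ∈ curve n v
    · exact absurd hpc (Set.disjoint_left.1 hd hpS)
    have hw : wind n v p ≠ 0 := by
      rcases hp with hp | hp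
      · exact absurd hp hpc
      · exact hp
    have hsub : S ⊆ {q | q ∉ curve n v ∧ wind n v q = 0}ᶜ := by
      rintro q hq ⟨-, hq0⟩
      exact hw (by rw [wind_const hS.isPreconnected hd hpS hq, hq0])
    have hfar : {p | p ∉ curve n v ∧ wind n v p = 0} ∈ cocompact (ℝ × ℝ) := wind_far n v
    rw [← Metric.cobounded_eq_cocompact] at hfar
    exact (Bornology.isBounded_def.2 (by rwa [compl_compl])).subset hsub

end simple

end Pool.Agent.H75.PolyJ
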