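import Pool.Agent.H75.PolyJ.Collar

/-!
The region of a simple polygon: open interior, closure, local form at the edges and the vertices
of a counterclockwise polygon, and the criterion for inward-facing half-planes.
-/

namespace Pool.Agent.H75.PolyJ

open Set Filter Topology Pool.Agent.H54.Fl
open scoped Real

/-- the points off the curve with nonzero winding number -/
def inner (n : ℕ) (v : ℕ → ℝ × ℝ) : Set (ℝ × ℝ) := {p | p ∉ curve n v ∧ wind n v p ≠ 0}

/-- counterclockwise: the winding number takes the value one -/
def CCW (n : ℕ) (v : ℕ → ℝ × ℝ) : Prop := ∃ p, p ∉ curve n v ∧ wind n v p = 1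

lemma isOpen_wind (n : ℕ) (v : ℕ → ℝ × ℝ) (P : ℤ → Prop) :
    IsOpen {p | p ∉ curve n v ∧ P (wind n v p)} := by
  rw [isOpen_iff_mem_nhds]
  rintro p ⟨hp1, hp2⟩
  filter_upwards [wind_eventually hp1] with q hq
  exact ⟨hq.1, by rw [hq.2]; exact hp2⟩

lemma isOpen_inner (n : ℕ) (v : ℕ → ℝ × ℝ) : IsOpen (inner n v) := isOpen_wind n v (fun k => k ≠ 0)

section simple

variable {n : ℕ} {v : ℕ → ℝ × ℝ} (h : IsSimplePolygon n v)
include h

lemma region_eq : region n v = curve n v ∪ inner n v := by
  ext p
  rw [mem_region_iff h]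
  constructor
  · rintro (h1 | h1)
    · exact Or.inl h1
    · by_cases h2 : p ∈ curve n v
      · exact Or.inl h2
      · exact Or.inr ⟨h2, h1⟩
  · rintro (h1 | h1)
    · exact Or.inl h1
    · exact Or.inr h1.2

lemma curve_subset_region : curve n v ⊆ region n v := by
  rw [region_eq h]; exact subset_union_left

lemma inner_subset_region : inner n v ⊆ region n v := by
  rw [region_eq h]; exact subset_union_right

lemma notMem_region_iff {p : ℝ × ℝ} : p ∉ region n v ↔ p ∉ curve n v ∧ wind n v p = 0 := by
  rw [mem_region_iff h]; push Not; rfl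

lemma isClosed_region : IsClosed (region n v) := by
  rw [← isOpen_compl_iff]
  have : (region n v)ᶜ = {p | p ∉ curve n v ∧ wind n v p = 0} := by
    ext p; exact notMem_region_iff h
  rw [this]
  exact isOpen_wind n v (fun k => k = 0)

lemma isCompact_region : IsCompact (region n v) := by
  have h1 : (region n v)ᶜ ∈ cocompact (ℝ × ℝ) := by
    filter_upwards [wind_far n v] with p hp
    exact (notMem_region_iff h).2 hp
  obtain ⟨K, hK, hK2⟩ := mem_cocompact.1 h1
  exact hK.of_isClosed_subset (isClosed_region h) (compl_subset_compl.1 hK2)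

lemma inner_eq : inner n v = {p | p ∉ curve n v ∧ wind n v p = 2 * wL h - 1} := by
  ext p
  constructor
  · rintro ⟨h1, h2⟩
    refine ⟨h1, ?_⟩
    rcases (wL_spec h).2.1 p h1 with h3 | h3 <;> rcases wL_eq h with h4 | h4 <;> omega
  · rintro ⟨h1, h2⟩
    refine ⟨h1, ?_⟩
    rcases wL_eq h with h4 | h4 <;> omega

lemma isPreconnected_inner : IsPreconnected (inner n v) := by
  rw [inner_eq h]
  rcases wL_eq h with h1 | h1
  · have := (wL_spec h).2.2.2
    have e : 2 * wL h - 1 = wL h - 1 := by omega
    rwa [e]
  · have := (wL_spec h).2.2.1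
    have e : 2 * wL h - 1 = wL h := by omega
    rwa [e]

/-- every point of the curve is a limit of inner points and of outer points -/
lemma frequently_inner {x : ℝ × ℝ} (hx : x ∈ curve n v) :
    (∃ᶠ q in 𝓝 x, q ∈ inner n v) ∧ (∃ᶠ q in 𝓝 x, q ∉ region n v) := by
  obtain ⟨L, R, hl⟩ := exists_isLoc (pos h) hx
  have h1 := (wL_spec h).1 x hx L R hl
  have h2 := loc_freq h hl
  have e1 := (h2.1.and_eventually h1).mono fun q hq => hq.2.1 hq.1
  have e2 := (h2.2.and_eventually h1).mono fun q hq => hq.2.2 hq.1
  rcases wL_eq h with h3 | h3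
  · constructor
    · exact e2.mono fun q hq => ⟨hq.1, by rw [hq.2]; omega⟩
    · exact e1.mono fun q hq => (notMem_region_iff h).2 ⟨hq.1, by rw [hq.2]; omega⟩
  · constructor
    · exact e1.mono fun q hq => ⟨hq.1, by rw [hq.2]; omega⟩
    · exact e2.mono fun q hq => (notMem_region_iff h).2 ⟨hq.1, by rw [hq.2]; omega⟩

lemma closure_inner : closure (inner n v) = region n v := by
  apply subset_antisymm
  · exact closure_minimal (inner_subset_region h) (isClosed_region h)
  · rw [region_eq h]
    rintro x (hx | hx)
    · exact mem_closure_iff_frequently.2 (frequently_inner h hx).1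
    · exact subset_closure hx

lemma inner_nonempty : (inner n v).Nonempty := by
  have hx : v 0 ∈ curve n v := ⟨0, pos h, left_mem_segment ℝ _ _⟩
  exact (frequently_inner h hx).1.exists

lemma interior_region : interior (region n v) = inner n v := by
  apply subset_antisymm
  · intro p hp
    have hp' := interior_subset hp
    rw [region_eq h] at hp'
    rcases hp' with h1 | h1
    · exfalso
      have h2 := (frequently_inner h h1).2
      obtain ⟨q, hq1, hq2⟩ := (h2.and_eventually (isOpen_interior.mem_nhds hp)).exists
      exact hq1 (interior_subset hq2)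
    · exact h1
  · exact interior_maximal (inner_subset_region h) (isOpen_inner n v)

/-- a connected set off the curve with a point in the region is inside -/
lemma subset_inner {S : Set (ℝ × ℝ)} (hS : IsPreconnected S) (hd : Disjoint S (curve n v))
    {p : ℝ × ℝ} (hp : p ∈ S) (hpr : p ∈ region n v) : S ⊆ inner n v := by
  intro q hq
  refine ⟨Set.disjoint_left.1 hd hq, ?_⟩
  rw [wind_const hS hd hq hp]
  rw [region_eq h] at hpr
  rcases hpr with h1 | h1
  · exact absurd h1 (Set.disjoint_left.1 hd hp)
  · exact h1.2

end simple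

section ccw

variable {n : ℕ} {v : ℕ → ℝ × ℝ} (h : IsSimplePolygon n v)
include h

lemma wL_of_ccw (hc : CCW n v) : wL h = 1 := by
  obtain ⟨p, hp1, hp2⟩ := hc
  rcases (wL_spec h).2.1 p hp1 with h3 | h3 <;> rcases wL_eq h with h4 | h4 <;> omega

lemma ccw_of_wL (hw : wL h = 1) : CCW n v := by
  obtain ⟨p, hp⟩ := inner_nonempty h
  rw [inner_eq h] at hp
  exact ⟨p, hp.1, by rw [hp.2, hw]; norm_num⟩

lemma wind_of_ccw (hc : CCW n v) {p : ℝ × ℝ} (hp : p ∉ curve n v) :
    wind n v p = 0 ∨ wind n v p = 1 := by
  have := wL_of_ccw h hc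
  rcases (wL_spec h).2.1 p hp with h3 | h3 <;> omega

lemma mem_inner_iff (hc : CCW n v) {p : ℝ × ℝ} : p ∈ inner n v ↔ p ∉ curve n v ∧ wind n v p = 1 := by
  constructor
  · rintro ⟨h1, h2⟩
    refine ⟨h1, ?_⟩
    rcases wind_of_ccw h hc h1 with h3 | h3
    · exact absurd h3 h2
    · exact h3
  · rintro ⟨h1, h2⟩
    exact ⟨h1, by rw [h2]; norm_num⟩

/-- local form of the region of a counterclockwise polygon -/
theorem region_loc (hc : CCW n v) {x : ℝ × ℝ} (hx : x ∈ curve n v) {L R : ℝ × ℝ → Prop}
    (hl : IsLoc n v x L R) :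
    ∀ᶠ q in 𝓝 x, (q ∈ region n v ↔ ¬ R q) ∧ (q ∈ inner n v ↔ L q) := by
  have hw := wL_of_ccw h hc
  filter_upwards [(wL_spec h).1 x hx L R hl, loc_sides h hl] with q hq1 hq2
  rw [hw] at hq1
  constructor
  · constructor
    · intro h1 h2
      obtain ⟨h3, h4⟩ := hq1.2 h2
      exact (notMem_region_iff h).2 ⟨h3, by rw [h4]; norm_num⟩ h1
    · intro h1
      by_contra h2
      obtain ⟨h3, h4⟩ := (notMem_region_iff h).1 h2
      rcases hq2.1.1 h3 with h5 | h5
      · have := (hq1.1 h5).2
        omega
      · exact h1 h5
  · rw [mem_inner_iff h hc]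
    constructor
    · rintro ⟨h1, h2⟩
      rcases hq2.1.1 h1 with h5 | h5
      · exact h5
      · have := (hq1.2 h5).2
        omega
    · intro h1
      exact hq1.1 h1

/-- near an inner point of an edge the region is the closed left half-plane -/
theorem region_edge (hc : CCW n v) {x : ℝ × ℝ} {i : ℕ} (hi : i < n) (hx : x ∈ edge n v i)
    (h1 : x ≠ v i) (h2 : x ≠ v (nx n i)) :
    ∀ᶠ q in 𝓝 x, (q ∈ region n v ↔ 0 ≤ orient (v i) (v (nx n i)) q) := by
  filter_upwards [region_loc h hc ⟨i, hi, hx⟩ (IsLoc.E i hi hx h1 h2)] with q hq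
  rw [hq.1, not_lt]

/-- near a vertex the region is an angle, convex or reflex -/
theorem region_vertex (hc : CCW n v) {j : ℕ} (hj : j < n) :
    ∀ᶠ q in 𝓝 (v j), (q ∈ region n v ↔
      (0 < orient (v (pv n j)) (v j) (v (nx n j)) ∧ 0 ≤ orient (v (pv n j)) (v j) q ∧
        0 ≤ orient (v j) (v (nx n j)) q) ∨
      (orient (v (pv n j)) (v j) (v (nx n j)) < 0 ∧ (0 ≤ orient (v (pv n j)) (v j) q ∨
        0 ≤ orient (v j) (v (nx n j)) q))) := by
  have hs := gen' h hj
  filter_upwards [region_loc h hc ⟨j, hj, left_mem_segment ℝ _ _⟩ (IsLoc.V j hj rfl)] with q hq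
  rw [hq.1]
  unfold rsV
  rcases lt_or_gt_of_ne hs with h1 | h1
  · simp only [h1, not_lt.2 h1.le, false_and, true_and, false_or, not_and_or, not_lt]
  · simp only [h1, not_lt.2 h1.le, false_and, true_and, or_false, not_or, not_lt]

end ccw

/-- the values of a linear form at a point written in the frame of a corner -/
lemma frame (u x w q N : ℝ × ℝ) :
    orient u x w * (N.1 * (q.1 - x.1) + N.2 * (q.2 - x.2)) =
      orient u x q * (N.1 * (w.1 - x.1) + N.2 * (w.2 - x.2)) +
      orient x w q * (N.1 * (u.1 - x.1) + N.2 * (u.2 - x.2)) := by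
  unfold orient; ring

/-- a path which leaves `x` in the direction `d` -/
lemma frequently_ray {x d : ℝ × ℝ} {P : ℝ × ℝ → Prop} (hP : ∀ t : ℝ, 0 < t → P (x + t • d)) :
    ∃ᶠ q in 𝓝 x, P q := by
  apply frequently_of_path (y := d)
  filter_upwards [self_mem_nhdsWithin] with t ht
  exact hP t ht

lemma orient_frame (u x w : ℝ × ℝ) (s t r : ℝ) :
    orient u x (x + r • (s • (w - x) + t • (u - x))) = r * s * orient u x w ∧
    orient x w (x + r • (s • (w - x) + t • (u - x))) = r * t * orient u x w := by
  unfold orient
  simp only [Prod.fst_add, Prod.smul_fst, Prod.snd_add, Prod.smul_snd, smul_eq_mul, Prod.fst_sub,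
    Prod.snd_sub]
  constructor <;> ring

lemma half_frame (u x w N : ℝ × ℝ) (s t r : ℝ) :
    N.1 * ((x + r • (s • (w - x) + t • (u - x))).1 - x.1) +
      N.2 * ((x + r • (s • (w - x) + t • (u - x))).2 - x.2) =
    r * (s * (N.1 * (w.1 - x.1) + N.2 * (w.2 - x.2)) +
      t * (N.1 * (u.1 - x.1) + N.2 * (u.2 - x.2))) := by
  simp only [Prod.fst_add, Prod.smul_fst, Prod.snd_add, Prod.smul_snd, smul_eq_mul, Prod.fst_sub,
    Prod.snd_sub]
  ring

lemma mem_halfPlane {p N q : ℝ × ℝ} :
    q ∈ halfPlane p N ↔ 0 ≤ N.1 * (q.1 - p.1) + N.2 * (q.2 - p.2) := Iff.rfl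

lemma normal_zero {u x w N : ℝ × ℝ} (hs : orient u x w ≠ 0)
    (h1 : N.1 * (w.1 - x.1) + N.2 * (w.2 - x.2) = 0)
    (h2 : N.1 * (u.1 - x.1) + N.2 * (u.2 - x.2) = 0) : N = 0 := by
  have e1 : N.1 * orient u x w = 0 := by
    unfold orient
    linear_combination (w.2 - x.2) * (-h2) + (u.2 - x.2) * h1
  have e2 : N.2 * orient u x w = 0 := by
    unfold orient
    linear_combination (w.1 - x.1) * h2 - (u.1 - x.1) * h1
  rcases mul_eq_zero.1 e1 with h3 | h3
  · rcases mul_eq_zero.1 e2 with h4 | h4
    · exact Prod.ext h3 h4
    · exact absurd h4 hs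
  · exact absurd h3 hs

/-- **criterion for inward-facing half-planes** at the vertices of a counterclockwise polygon -/
theorem inwardFacing_iff {n : ℕ} {v : ℕ → ℝ × ℝ} (h : IsSimplePolygon n v) (hc : CCW n v)
    {j : ℕ} (hj : j < n) {N : ℝ × ℝ} (hN : N ≠ 0) :
    InwardFacing (region n v) (v j) (halfPlane (v j) N) ↔
      (0 < orient (v (pv n j)) (v j) (v (nx n j)) ∧
        0 ≤ N.1 * ((v (nx n j)).1 - (v j).1) + N.2 * ((v (nx n j)).2 - (v j).2) ∧
        0 ≤ N.1 * ((v (pv n j)).1 - (v j).1) + N.2 * ((v (pv n j)).2 - (v j).2)) ∨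
      (orient (v (pv n j)) (v j) (v (nx n j)) < 0 ∧
        N.1 * ((v (nx n j)).1 - (v j).1) + N.2 * ((v (nx n j)).2 - (v j).2) ≤ 0 ∧
        N.1 * ((v (pv n j)).1 - (v j).1) + N.2 * ((v (pv n j)).2 - (v j).2) ≤ 0) := by
  have hreg := region_vertex h hc hj
  have hs := gen' h hj
  set u := v (pv n j)
  set w := v (nx n j)
  set x := v j
  set a := N.1 * (w.1 - x.1) + N.2 * (w.2 - x.2) with ha
  set b := N.1 * (u.1 - x.1) + N.2 * (u.2 - x.2) with hb
  have hab : ¬ (a = 0 ∧ b = 0) := by
    rintro ⟨h1, h2⟩
    exact hN (normal_zero hs h1 h2)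
  have hfr := fun q => frame u x w q N
  rcases lt_or_gt_of_ne hs with h1 | h1
  · -- reflex
    simp only [h1, not_lt.2 h1.le, false_and, true_and, false_or] at hreg ⊢
    constructor
    · intro hI
      rcases hI with hI | hI
      · -- H ⊆ P near x
        have key : ∀ s t : ℝ, 0 < s → 0 < t → ¬ (0 ≤ s * a + t * b) := by
          intro s t hs0 ht0 hcon
          have hf : ∃ᶠ q in 𝓝 x, q ∈ halfPlane x N ∧ ¬ (0 ≤ orient u x q ∨ 0 ≤ orient x w q) := by
            apply frequently_ray (d := s • (w - x) + t • (u - x))
            intro r hr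
            constructor
            · rw [mem_halfPlane, half_frame]
              exact mul_nonneg hr.le hcon
            · rw [(orient_frame u x w s t r).1, (orient_frame u x w s t r).2]
              push Not
              have e1 := mul_pos hr hs0
              have e2 := mul_pos hr ht0
              constructor <;> nlinarith
          obtain ⟨q, ⟨⟨hq1, hq2⟩, hq3⟩, hq4⟩ :=
            ((hf.and_eventually hI).and_eventually hreg).exists
          exact hq2 (hq4.1 (hq3 hq1))
        constructor
        · by_contra hcon
          push Not at hcon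
          rcases le_or_gt 0 b with hb0 | hb0
          · exact key 1 1 one_pos one_pos (by linarith)
          · refine key (-b) a (by linarith) hcon ?_
            linarith [mul_comm a b]
        · by_contra hcon
          push Not at hcon
          rcases le_or_gt 0 a with ha0 | ha0
          · exact key 1 1 one_pos one_pos (by linarith)
          · refine key b (-a) hcon (by linarith) ?_
            linarith [mul_comm a b]
      · -- P ⊆ H near x: impossible
        exfalso
        have key : ∀ s t : ℝ, (s ≤ 0 ∨ t ≤ 0) → 0 ≤ s * a + t * b := by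
          intro s t hst
          by_contra hcon
          have hf : ∃ᶠ q in 𝓝 x, q ∉ halfPlane x N ∧ (0 ≤ orient u x q ∨ 0 ≤ orient x w q) := by
            apply frequently_ray (d := s • (w - x) + t • (u - x))
            intro r hr
            constructor
            · rw [mem_halfPlane, half_frame]
              intro h5
              exact hcon (by by_contra h6; push Not at h6; nlinarith)
            · rw [(orient_frame u x w s t r).1, (orient_frame u x w s t r).2]
              rcases hst with h5 | h5
              · left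
                have : r * s ≤ 0 := mul_nonpos_of_nonneg_of_nonpos hr.le h5
                nlinarith
              · right
                have : r * t ≤ 0 := mul_nonpos_of_nonneg_of_nonpos hr.le h5
                nlinarith
          obtain ⟨q, ⟨⟨hq1, hq2⟩, hq3⟩, hq4⟩ :=
            ((hf.and_eventually hI).and_eventually hreg).exists
          exact hq1 (hq3 (hq4.2 hq2))
        apply hab
        have k1 := key 0 1 (Or.inl le_rfl)
        have k2 := key 0 (-1) (Or.inl le_rfl)
        have k3 := key 1 0 (Or.inr le_rfl)
        have k4 := key (-1) 0 (Or.inr le_rfl)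
        constructor <;> linarith
    · rintro ⟨ha0, hb0⟩
      left
      filter_upwards [hreg] with q hq hqH
      rw [hq]
      by_contra hcon
      push Not at hcon
      obtain ⟨h5, h6⟩ := hcon
      have h7 : 0 ≤ N.1 * (q.1 - x.1) + N.2 * (q.2 - x.2) := hqH
      have h8 := hfr q
      have h9 : 0 ≤ orient u x q * a := mul_nonneg_of_nonpos_of_nonpos h5.le ha0
      have h10 : 0 ≤ orient x w q * b := mul_nonneg_of_nonpos_of_nonpos h6.le hb0
      have h11 : orient u x w * (N.1 * (q.1 - x.1) + N.2 * (q.2 - x.2)) ≤ 0 :=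
        mul_nonpos_of_nonpos_of_nonneg h1.le h7
      have h12 : orient u x q * a = 0 := by linarith
      have h13 : orient x w q * b = 0 := by linarith
      apply hab
      constructor
      · rcases mul_eq_zero.1 h12 with h | h
        · linarith
        · exact h
      · rcases mul_eq_zero.1 h13 with h | h
        · linarith
        · exact h
  · -- convex
    simp only [h1, not_lt.2 h1.le, false_and, true_and, or_false] at hreg ⊢
    constructor
    · intro hI
      rcases hI with hI | hI
      · -- H ⊆ P near x: impossible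
        exfalso
        have key : ∀ s t : ℝ, 0 ≤ s * a + t * b → 0 ≤ s ∧ 0 ≤ t := by
          intro s t hst
          have hf : ∃ᶠ q in 𝓝 x, q ∈ halfPlane x N ∧
              (0 ≤ orient u x q → 0 ≤ s) ∧ (0 ≤ orient x w q → 0 ≤ t) := by
            apply frequently_ray (d := s • (w - x) + t • (u - x))
            intro r hr
            refine ⟨?_, ?_, ?_⟩
            · rw [mem_halfPlane, half_frame]
              exact mul_nonneg hr.le hst
            · rw [(orient_frame u x w s t r).1]
              intro h5
              by_contra h6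
              push Not at h6
              have := mul_neg_of_pos_of_neg hr h6
              nlinarith
            · rw [(orient_frame u x w s t r).2]
              intro h5
              by_contra h6
              push Not at h6
              have := mul_neg_of_pos_of_neg hr h6
              nlinarith
          obtain ⟨q, ⟨⟨hq1, hq2⟩, hq3⟩, hq4⟩ :=
            ((hf.and_eventually hI).and_eventually hreg).exists
          have := hq4.1 (hq3 hq1)
          exact ⟨hq2.1 this.1, hq2.2 this.2⟩
        have k1 := key b (-a) (by linarith [mul_comm a b])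
        have k2 := key (-b) a (by linarith [mul_comm a b])
        apply hab
        constructor <;> linarith [k1.1, k1.2, k2.1, k2.2]
      · -- P ⊆ H near x
        have key : ∀ s t : ℝ, 0 ≤ s → 0 ≤ t → 0 ≤ s * a + t * b := by
          intro s t hs0 ht0
          by_contra hcon
          have hf : ∃ᶠ q in 𝓝 x, q ∉ halfPlane x N ∧ (0 ≤ orient u x q ∧ 0 ≤ orient x w q) := by
            apply frequently_ray (d := s • (w - x) + t • (u - x))
            intro r hr
            constructor
            · rw [mem_halfPlane, half_frame]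
              intro h5
              exact hcon (by by_contra h6; push Not at h6; nlinarith)
            · rw [(orient_frame u x w s t r).1, (orient_frame u x w s t r).2]
              constructor <;> positivity
          obtain ⟨q, ⟨⟨hq1, hq2⟩, hq3⟩, hq4⟩ :=
            ((hf.and_eventually hI).and_eventually hreg).exists
          exact hq1 (hq3 (hq4.2 hq2))
        have k1 := key 0 1 le_rfl zero_le_one
        have k2 := key 1 0 zero_le_one le_rfl
        constructor <;> linarith
    · rintro ⟨ha0, hb0⟩
      right
      filter_upwards [hreg] with q hq hqP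
      obtain ⟨h5, h6⟩ := hq.1 hqP
      show 0 ≤ N.1 * (q.1 - x.1) + N.2 * (q.2 - x.2)
      have h8 := hfr q
      have h9 : 0 ≤ orient u x q * a := mul_nonneg h5 ha0
      have h10 : 0 ≤ orient x w q * b := mul_nonneg h6 hb0
      by_contra hcon
      push Not at hcon
      have := mul_neg_of_pos_of_neg h1 hcon
      linarith

end Pool.Agent.H75.PolyJ
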