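import Pool.Agent.H75.PolyJ.Simple

/-!
The two sides of a simple polygon: left and right collars, every point off the curve is joined to
one of them, and the winding number is one larger on the left than on the right.
-/

namespace Pool.Agent.H75.PolyJ

open Set Filter Topology Pool.Agent.H54.Fl

/-- left side of a corner `u → x → w` -/
def lsV (u x w q : ℝ × ℝ) : Prop :=
  (0 < orient u x w ∧ 0 < orient u x q ∧ 0 < orient x w q) ∨
  (orient u x w < 0 ∧ (0 < orient u x q ∨ 0 < orient x w q))

/-- right side of a corner `u → x → w` -/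
def rsV (u x w q : ℝ × ℝ) : Prop :=
  (0 < orient u x w ∧ (orient u x q < 0 ∨ orient x w q < 0)) ∨
  (orient u x w < 0 ∧ orient u x q < 0 ∧ orient x w q < 0)

/-- `L` and `R` describe the two sides of the curve near its point `x` -/
inductive IsLoc (n : ℕ) (v : ℕ → ℝ × ℝ) (x : ℝ × ℝ) : (ℝ × ℝ → Prop) → (ℝ × ℝ → Prop) → Prop
  | E (i : ℕ) (hi : i < n) (hx : x ∈ edge n v i) (h1 : x ≠ v i) (h2 : x ≠ v (nx n i)) :
      IsLoc n v x (fun q => 0 < orient (v i) (v (nx n i)) q)
        (fun q => orient (v i) (v (nx n i)) q < 0)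
  | V (j : ℕ) (hj : j < n) (hx : x = v j) :
      IsLoc n v x (lsV (v (pv n j)) (v j) (v (nx n j))) (rsV (v (pv n j)) (v j) (v (nx n j)))

section

variable {n : ℕ} {v : ℕ → ℝ × ℝ}

lemma exists_isLoc (hn : 0 < n) {x : ℝ × ℝ} (hx : x ∈ curve n v) : ∃ L R, IsLoc n v x L R := by
  obtain ⟨i, hi, hxi⟩ := hx
  by_cases h1 : x = v i
  · exact ⟨_, _, IsLoc.V i hi h1⟩
  by_cases h2 : x = v (nx n i)
  · exact ⟨_, _, IsLoc.V (nx n i) (nx_lt hn i) h2⟩
  · exact ⟨_, _, IsLoc.E i hi hxi h1 h2⟩

/-- near `x` only the edges through `x` matter -/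
lemma eventually_edges (x : ℝ × ℝ) :
    ∀ᶠ q in 𝓝 x, ∀ k < n, x ∉ edge n v k → q ∉ edge n v k := by
  have : ∀ᶠ q in 𝓝 x, ∀ k ∈ Finset.range n, x ∉ edge n v k → q ∉ edge n v k := by
    rw [Filter.eventually_all_finset]
    intro k _
    by_cases hk : x ∈ edge n v k
    · exact Eventually.of_forall fun q hq => absurd hk hq
    · have hc : IsClosed (edge n v k) := by
        rw [edge_eq, ← convexHull_pair (𝕜 := ℝ)]
        exact ((Set.toFinite _).isCompact_convexHull ℝ).isClosed
      filter_upwards [hc.isOpen_compl.mem_nhds hk] with q hq _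
      exact hq
  filter_upwards [this] with q hq k hk
  exact hq k (Finset.mem_range.2 hk)

lemma dot_pos {a b : ℝ × ℝ} (hab : a ≠ b) : 0 < (b.1 - a.1) ^ 2 + (b.2 - a.2) ^ 2 := by
  rcases eq_or_ne a.1 b.1 with h1 | h1
  · have h2 : a.2 ≠ b.2 := fun h2 => hab (Prod.ext h1 h2)
    have : 0 < (b.2 - a.2) ^ 2 := by
      apply sq_pos_of_ne_zero; intro h; exact h2 (by linarith)
    positivity
  · have : 0 < (b.1 - a.1) ^ 2 := by
      apply sq_pos_of_ne_zero; intro h; exact h1 (by linarith)
    positivity

/-- left normal of the edge `a → b` -/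
def nrm (a b : ℝ × ℝ) : ℝ × ℝ := (-(b.2 - a.2), b.1 - a.1)

lemma orient_nrm (a b x : ℝ × ℝ) (t : ℝ) : orient a b (x + t • nrm a b) =
    orient a b x + t * ((b.1 - a.1) ^ 2 + (b.2 - a.2) ^ 2) := by
  unfold orient nrm
  simp only [Prod.fst_add, Prod.smul_fst, Prod.snd_add, Prod.smul_snd, smul_eq_mul]
  ring

lemma orient_affine (a b x y : ℝ × ℝ) (t : ℝ) : orient a b (x + t • y) =
    orient a b x + t * (orient a b (a + y)) := by
  unfold orient
  simp only [Prod.fst_add, Prod.smul_fst, Prod.snd_add, Prod.smul_snd, smul_eq_mul]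
  ring

lemma frequently_of_path {x y : ℝ × ℝ} {P : ℝ × ℝ → Prop}
    (hP : ∀ᶠ t in 𝓝[>] (0 : ℝ), P (x + t • y)) : ∃ᶠ q in 𝓝 x, P q := by
  have hc : Tendsto (fun t : ℝ => x + t • y) (𝓝[>] (0 : ℝ)) (𝓝 x) := by
    have : Continuous (fun t : ℝ => x + t • y) := by fun_prop
    have h := this.tendsto 0
    simp only [zero_smul, add_zero] at h
    exact h.mono_left nhdsWithin_le_nhds
  exact hc.frequently hP.frequently

/-- if the affine function is positive at `x`, or zero at `x` with positive slope, it is positive
along the path -/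
lemma path_pos {a b x y : ℝ × ℝ} (h : 0 < orient a b x ∨
    (0 ≤ orient a b x ∧ 0 < orient a b (a + y))) :
    ∀ᶠ t in 𝓝[>] (0 : ℝ), 0 < orient a b (x + t • y) := by
  rcases h with h | ⟨h1, h2⟩
  · have hc : Continuous (fun t : ℝ => orient a b (x + t • y)) :=
      (continuous_orient a b).comp (by fun_prop)
    have h0 : 0 < (fun t : ℝ => orient a b (x + t • y)) 0 := by simpa using h
    exact (hc.continuousAt.eventually_const_lt h0).filter_mono nhdsWithin_le_nhds
  · filter_upwards [self_mem_nhdsWithin] with t ht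
    have ht0 : (0 : ℝ) < t := ht
    rw [orient_affine]
    have := mul_pos ht0 h2
    linarith

lemma path_neg {a b x y : ℝ × ℝ} (h : orient a b x < 0 ∨
    (orient a b x ≤ 0 ∧ orient a b (a + y) < 0)) :
    ∀ᶠ t in 𝓝[>] (0 : ℝ), orient a b (x + t • y) < 0 := by
  have h' : 0 < orient b a x ∨ (0 ≤ orient b a x ∧ 0 < orient b a (b + y)) := by
    have e1 : orient b a x = - orient a b x := orient_swap _ _ _
    have e2 : orient b a (b + y) = - orient a b (a + y) := by
      unfold orient
      simp only [Prod.fst_add, Prod.snd_add]; ring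
    rw [e1, e2]
    rcases h with h | ⟨h1, h2⟩
    · left; linarith
    · right; constructor <;> linarith
  filter_upwards [path_pos h'] with t ht
  rw [orient_swap a b] at ht
  linarith

lemma orient_nrm_slope {a b : ℝ × ℝ} (hab : a ≠ b) : 0 < orient a b (a + nrm a b) := by
  have h := orient_nrm a b a 1
  rw [one_smul, orient_self_left] at h
  rw [h]
  have := dot_pos hab
  linarith

lemma orient_neg_nrm_slope {a b : ℝ × ℝ} (hab : a ≠ b) : orient a b (a + (- nrm a b)) < 0 := by
  have h := orient_nrm a b a (-1)
  rw [neg_smul, one_smul, orient_self_left] at h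
  rw [h]
  have := dot_pos hab
  linarith

end

lemma sign_neg (A B : ℝ) : ¬ ((B = 0 ∧ A ≤ 0) ∨ (A = 0 ∧ B ≤ 0)) ↔
    ((0 < A ∨ 0 < B) ∨ (A < 0 ∧ B < 0)) := by
  grind

lemma sign_pos (A B : ℝ) : ¬ ((B = 0 ∧ 0 ≤ A) ∨ (A = 0 ∧ 0 ≤ B)) ↔
    ((0 < A ∧ 0 < B) ∨ (A < 0 ∨ B < 0)) := by
  grind

section simple

variable {n : ℕ} {v : ℕ → ℝ × ℝ} (h : IsSimplePolygon n v)
include h

/-- near a point of the curve the complement consists of the two sides -/
lemma loc_sides {x : ℝ × ℝ} {L R : ℝ × ℝ → Prop} (hl : IsLoc n v x L R) :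
    ∀ᶠ q in 𝓝 x, (q ∉ curve n v ↔ (L q ∨ R q)) ∧ ¬ (L q ∧ R q) := by
  cases hl with
  | E i hi hx h1 h2 =>
    have hk : ∀ k < n, k ≠ i → x ∉ edge n v k := by
      intro k hk hki hxk
      rcases edge_inter h hi hk (Ne.symm hki) hx hxk with ⟨h3, h4⟩ | ⟨h3, h4⟩
      · exact h2 (by rw [h3]; exact h4)
      · exact h1 h4
    filter_upwards [eventually_edges (n := n) (v := v) x, eventually_line_open hx h1 h2]
      with q hq1 hq2
    refine ⟨?_, fun ⟨h3, h4⟩ => lt_asymm h3 h4⟩
    constructor
    · intro hq
      rcases lt_trichotomy (orient (v i) (v (nx n i)) q) 0 with h3 | h3 | h3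
      · exact Or.inr h3
      · exact absurd ⟨i, hi, hq2 h3⟩ hq
      · exact Or.inl h3
    · rintro h3 ⟨k, hk1, hk2⟩
      by_cases hki : k = i
      · subst hki
        have := orient_of_mem hk2
        change orient (v k) (v (nx n k)) q = 0 at this
        rcases h3 with h3 | h3 <;> linarith
      · exact hq1 k hk1 (hk k hk1 hki) hk2
  | V j hj hx =>
    subst hx
    have hk : ∀ k < n, k ≠ j → k ≠ pv n j → v j ∉ edge n v k := by
      intro k hk h1 h2 h3
      rcases vertex_mem_edge h hj hk h3 with h4 | h4
      · exact h1 h4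
      · exact h2 h4
    have hs := gen' h hj
    filter_upwards [eventually_edges (n := n) (v := v) (v j), eventually_seg_right hs,
      eventually_seg_left hs] with q hq1 hq2 hq3
    have hc : q ∈ curve n v ↔ (q ∈ segment ℝ (v j) (v (nx n j)) ∨
        q ∈ segment ℝ (v (pv n j)) (v j)) := by
      constructor
      · rintro ⟨k, hk1, hk2⟩
        by_cases h1 : k = j
        · left; rw [h1] at hk2; exact hk2
        by_cases h2 : k = pv n j
        · right; rw [h2, edge_eq, nx_pv hj] at hk2; exact hk2
        · exact absurd hk2 (hq1 k hk1 (hk k hk1 h1 h2))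
      · rintro (h1 | h1)
        · exact ⟨j, hj, h1⟩
        · refine ⟨pv n j, pv_lt (pos h) j, ?_⟩
          rw [edge_eq, nx_pv hj]; exact h1
    rw [hc, hq2, hq3]
    unfold lsV rsV
    set A := orient (v (pv n j)) (v j) q
    set B := orient (v j) (v (nx n j)) q
    set s := orient (v (pv n j)) (v j) (v (nx n j))
    rcases lt_or_gt_of_ne hs with h1 | h1
    · have e1 : ∀ y : ℝ, (0 ≤ s * y ↔ y ≤ 0) := by
        intro y
        constructor
        · intro hy; by_contra h2; push Not at h2; nlinarith
        · intro hy; nlinarith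
      rw [e1, e1]
      have h2 : ¬ (0 < s) := not_lt.2 h1.le
      simp only [h1, h2, false_and, true_and, false_or]
      constructor
      · exact sign_neg A B
      · rintro ⟨h3 | h3, h4, h5⟩ <;> linarith
    · have e1 : ∀ y : ℝ, (0 ≤ s * y ↔ 0 ≤ y) := by
        intro y
        constructor
        · intro hy; by_contra h2; push Not at h2; nlinarith
        · intro hy; nlinarith
      rw [e1, e1]
      have h2 : ¬ (s < 0) := not_lt.2 h1.le
      simp only [h1, h2, false_and, true_and, or_false]
      constructor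
      · exact sign_pos A B
      · rintro ⟨⟨h3, h4⟩, h5 | h5⟩ <;> linarith

omit h in
lemma orient_comb (a b x y : ℝ × ℝ) {s t : ℝ} (hst : s + t = 1) :
    orient a b (s • x + t • y) = s * orient a b x + t * orient a b y := by
  have : s = 1 - t := by linarith
  subst this
  unfold orient
  simp only [Prod.fst_add, Prod.smul_fst, Prod.snd_add, Prod.smul_snd, smul_eq_mul]
  ring

omit h in
lemma convex_pos (a b : ℝ × ℝ) : Convex ℝ {q | 0 < orient a b q} := by
  intro x hx y hy s t hs ht hst
  simp only [mem_ofPred_eq] at hx hy ⊢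
  rw [orient_comb _ _ _ _ hst]
  rcases eq_or_lt_of_le hs with h0 | h0
  · have : t = 1 := by linarith
    rw [this, ← h0]; linarith
  · have := mul_pos h0 hx
    have := mul_nonneg ht hy.le
    linarith

omit h in
lemma convex_neg (a b : ℝ × ℝ) : Convex ℝ {q | orient a b q < 0} := by
  have : {q | orient a b q < 0} = {q | 0 < orient b a q} := by
    ext q; simp only [mem_ofPred_eq]; rw [orient_swap a b]; constructor <;> intro h <;> linarith
  rw [this]; exact convex_pos b a

omit h in
/-- bisecting direction at a corner -/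
lemma path_corner (u x w : ℝ × ℝ) (t : ℝ) :
    orient u x (x + t • ((u - x) + (w - x))) = t * orient u x w ∧
    orient x w (x + t • ((u - x) + (w - x))) = t * orient u x w := by
  unfold orient
  simp only [Prod.fst_add, Prod.smul_fst, Prod.snd_add, Prod.smul_snd, smul_eq_mul, Prod.fst_sub,
    Prod.snd_sub]
  constructor <;> ring

omit h in
lemma path_corner_neg (u x w : ℝ × ℝ) (t : ℝ) :
    orient u x (x + t • (-((u - x) + (w - x)))) = - (t * orient u x w) ∧
    orient x w (x + t • (-((u - x) + (w - x)))) = - (t * orient u x w) := by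
  have := path_corner u x w (-t)
  rw [neg_smul] at this
  rw [smul_neg, this.1, this.2]
  constructor <;> ring

lemma loc_freq {x : ℝ × ℝ} {L R : ℝ × ℝ → Prop} (hl : IsLoc n v x L R) :
    (∃ᶠ q in 𝓝 x, L q) ∧ (∃ᶠ q in 𝓝 x, R q) := by
  cases hl with
  | E i hi hx h1 h2 =>
    have h0 := orient_of_mem hx
    have hne := edge_nondeg h hi
    constructor
    · apply frequently_of_path (y := nrm (v i) (v (nx n i)))
      exact path_pos (Or.inr ⟨h0.ge, orient_nrm_slope hne⟩)
    · apply frequently_of_path (y := - nrm (v i) (v (nx n i)))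
      exact path_neg (Or.inr ⟨h0.le, orient_neg_nrm_slope hne⟩)
  | V j hj hx =>
    subst hx
    have hs := gen' h hj
    rcases lt_or_gt_of_ne hs with h1 | h1
    · constructor
      · apply frequently_of_path (y := -((v (pv n j) - v j) + (v (nx n j) - v j)))
        filter_upwards [self_mem_nhdsWithin] with t ht
        have ht0 : (0 : ℝ) < t := ht
        right
        refine ⟨h1, Or.inl ?_⟩
        rw [(path_corner_neg _ _ _ _).1]
        nlinarith
      · apply frequently_of_path (y := ((v (pv n j) - v j) + (v (nx n j) - v j)))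
        filter_upwards [self_mem_nhdsWithin] with t ht
        have ht0 : (0 : ℝ) < t := ht
        right
        refine ⟨h1, ?_, ?_⟩
        · rw [(path_corner _ _ _ _).1]; nlinarith
        · rw [(path_corner _ _ _ _).2]; nlinarith
    · constructor
      · apply frequently_of_path (y := ((v (pv n j) - v j) + (v (nx n j) - v j)))
        filter_upwards [self_mem_nhdsWithin] with t ht
        have ht0 : (0 : ℝ) < t := ht
        left
        refine ⟨h1, ?_, ?_⟩
        · rw [(path_corner _ _ _ _).1]; positivity
        · rw [(path_corner _ _ _ _).2]; positivity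
      · apply frequently_of_path (y := -((v (pv n j) - v j) + (v (nx n j) - v j)))
        filter_upwards [self_mem_nhdsWithin] with t ht
        have ht0 : (0 : ℝ) < t := ht
        left
        refine ⟨h1, Or.inl ?_⟩
        rw [(path_corner_neg _ _ _ _).1]
        have := mul_pos ht0 h1
        linarith

lemma loc_conn {x : ℝ × ℝ} {L R : ℝ × ℝ → Prop} (hl : IsLoc n v x L R) {r : ℝ} (hr : 0 < r) :
    IsPreconnected (Metric.ball x r ∩ {q | L q}) ∧ IsPreconnected (Metric.ball x r ∩ {q | R q}) := by
  have hb := convex_ball x r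
  cases hl with
  | E i hi hx h1 h2 =>
    exact ⟨(hb.inter (convex_pos _ _)).isPreconnected, (hb.inter (convex_neg _ _)).isPreconnected⟩
  | V j hj hx =>
    subst hx
    have hs := gen' h hj
    set u := v (pv n j)
    set w := v (nx n j)
    rcases lt_or_gt_of_ne hs with h1 | h1
    · constructor
      · have e : Metric.ball (v j) r ∩ {q | lsV u (v j) w q} =
            (Metric.ball (v j) r ∩ {q | 0 < orient u (v j) q}) ∪
            (Metric.ball (v j) r ∩ {q | 0 < orient (v j) w q}) := by
          ext q
          simp only [lsV, mem_inter_iff, mem_ofPred_eq, mem_union, h1, not_lt.2 h1.le, false_and,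
            true_and, false_or]
          tauto
        rw [e]
        have hf : ∃ᶠ q in 𝓝 (v j), 0 < orient u (v j) q ∧ 0 < orient (v j) w q := by
          apply frequently_of_path (y := -((u - v j) + (w - v j)))
          filter_upwards [self_mem_nhdsWithin] with t ht
          have ht0 : (0 : ℝ) < t := ht
          rw [(path_corner_neg _ _ _ _).1, (path_corner_neg _ _ _ _).2]
          constructor <;> nlinarith
        obtain ⟨q, hq, hqb⟩ := (hf.and_eventually (Metric.ball_mem_nhds (v j) hr)).exists
        exact IsPreconnected.union q ⟨hqb, hq.1⟩ ⟨hqb, hq.2⟩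
          (hb.inter (convex_pos _ _)).isPreconnected (hb.inter (convex_pos _ _)).isPreconnected
      · have e : Metric.ball (v j) r ∩ {q | rsV u (v j) w q} =
            (Metric.ball (v j) r ∩ {q | orient u (v j) q < 0}) ∩ {q | orient (v j) w q < 0} := by
          ext q
          simp only [rsV, mem_inter_iff, mem_ofPred_eq, h1, not_lt.2 h1.le, false_and,
            true_and, false_or]
          tauto
        rw [e]
        exact ((hb.inter (convex_neg _ _)).inter (convex_neg _ _)).isPreconnected
    · constructor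
      · have e : Metric.ball (v j) r ∩ {q | lsV u (v j) w q} =
            (Metric.ball (v j) r ∩ {q | 0 < orient u (v j) q}) ∩ {q | 0 < orient (v j) w q} := by
          ext q
          simp only [lsV, mem_inter_iff, mem_ofPred_eq, h1, not_lt.2 h1.le, false_and,
            true_and, or_false]
          tauto
        rw [e]
        exact ((hb.inter (convex_pos _ _)).inter (convex_pos _ _)).isPreconnected
      · have e : Metric.ball (v j) r ∩ {q | rsV u (v j) w q} =
            (Metric.ball (v j) r ∩ {q | orient u (v j) q < 0}) ∪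
            (Metric.ball (v j) r ∩ {q | orient (v j) w q < 0}) := by
          ext q
          simp only [rsV, mem_inter_iff, mem_ofPred_eq, mem_union, h1, not_lt.2 h1.le, false_and,
            true_and, or_false]
          tauto
        rw [e]
        have hf : ∃ᶠ q in 𝓝 (v j), orient u (v j) q < 0 ∧ orient (v j) w q < 0 := by
          apply frequently_of_path (y := -((u - v j) + (w - v j)))
          filter_upwards [self_mem_nhdsWithin] with t ht
          have ht0 : (0 : ℝ) < t := ht
          rw [(path_corner_neg _ _ _ _).1, (path_corner_neg _ _ _ _).2]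
          have := mul_pos ht0 h1
          constructor <;> linarith
        obtain ⟨q, hq, hqb⟩ := (hf.and_eventually (Metric.ball_mem_nhds (v j) hr)).exists
        exact IsPreconnected.union q ⟨hqb, hq.1⟩ ⟨hqb, hq.2⟩
          (hb.inter (convex_neg _ _)).isPreconnected (hb.inter (convex_neg _ _)).isPreconnected

omit h in
/-- a point of the segment `x w` other than `x` is `x + t (w - x)` with `t > 0` -/
lemma seg_param {x w q : ℝ × ℝ} (hq : q ∈ segment ℝ x w) (hne : q ≠ x) :
    ∃ t : ℝ, 0 < t ∧ q = x + t • (w - x) := by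
  obtain ⟨s, t, hs, ht, hst, rfl⟩ := hq
  have e : s • x + t • w = x + t • (w - x) := by
    have : s = 1 - t := by linarith
    subst this
    ext <;> simp <;> ring
  refine ⟨t, ?_, e⟩
  rcases eq_or_lt_of_le ht with h0 | h0
  · exfalso; apply hne; rw [e, ← h0]; simp
  · exact h0

/-- the sides of neighbouring points of the curve match -/
lemma loc_nbr {x : ℝ × ℝ} {L R : ℝ × ℝ → Prop} (hl : IsLoc n v x L R) :
    ∀ᶠ x' in 𝓝[curve n v] x, ∀ L' R', IsLoc n v x' L' R' →
      (∃ᶠ q in 𝓝 x', L q ∧ L' q) ∧ (∃ᶠ q in 𝓝 x', R q ∧ R' q) := by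
  have hl0 := hl
  cases hl with
  | E i hi hx h1 h2 =>
    have hk : ∀ k < n, k ≠ i → x ∉ edge n v k := by
      intro k hk hki hxk
      rcases edge_inter h hi hk (Ne.symm hki) hx hxk with ⟨h3, h4⟩ | ⟨h3, h4⟩
      · exact h2 (by rw [h3]; exact h4)
      · exact h1 h4
    have e1 : ∀ᶠ q in 𝓝[curve n v] x, ∀ k < n, x ∉ edge n v k → q ∉ edge n v k :=
      (eventually_edges x).filter_mono nhdsWithin_le_nhds
    have e2' : ∀ᶠ q in 𝓝 x, q ≠ v i := isOpen_ne.mem_nhds h1
    have e2 : ∀ᶠ q in 𝓝[curve n v] x, q ≠ v i := e2'.filter_mono nhdsWithin_le_nhds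
    have hne := edge_nondeg h hi
    filter_upwards [e1, e2, self_mem_nhdsWithin] with x' hx1 hx2 hx3 L' R' hl'
    cases hl' with
    | E k hk' hxk h3 h4 =>
      have hki : k = i := by
        by_contra hki
        exact hx1 k hk' (hk k hk' hki) hxk
      subst hki
      have h0 := orient_of_mem hxk
      constructor
      · apply frequently_of_path (y := nrm (v k) (v (nx n k)))
        filter_upwards [path_pos (Or.inr ⟨h0.ge, orient_nrm_slope hne⟩)] with t ht
        exact ⟨ht, ht⟩
      · apply frequently_of_path (y := - nrm (v k) (v (nx n k)))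
        filter_upwards [path_neg (Or.inr ⟨h0.le, orient_neg_nrm_slope hne⟩)] with t ht
        exact ⟨ht, ht⟩
    | V k hk' hxk =>
      exfalso
      have hmem : x' ∈ edge n v k := by rw [hxk]; exact left_mem_segment ℝ _ _
      have hki : k = i := by
        by_contra hki
        exact hx1 k hk' (hk k hk' hki) hmem
      subst hki
      exact hx2 hxk
  | V j hj hx =>
    subst hx
    have hk : ∀ k < n, k ≠ j → k ≠ pv n j → v j ∉ edge n v k := by
      intro k hk h1 h2 h3
      rcases vertex_mem_edge h hj hk h3 with h4 | h4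
      · exact h1 h4
      · exact h2 h4
    have hpl := pv_lt (pos h) j
    have hpj : v j ≠ v (pv n j) := by
      intro he
      have := vertex_inj h hj hpl he
      have h2 := nx_ne h hpl
      rw [nx_pv hj] at h2
      exact h2 this
    have e1 : ∀ᶠ q in 𝓝[curve n v] (v j), ∀ k < n, v j ∉ edge n v k → q ∉ edge n v k :=
      (eventually_edges (v j)).filter_mono nhdsWithin_le_nhds
    have e2' : ∀ᶠ q in 𝓝 (v j), q ≠ v (pv n j) := isOpen_ne.mem_nhds hpj
    have e2 : ∀ᶠ q in 𝓝[curve n v] (v j), q ≠ v (pv n j) := e2'.filter_mono nhdsWithin_le_nhds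
    have hs := gen' h hj
    filter_upwards [e1, e2, self_mem_nhdsWithin] with x' hx1 hx2 hx3 L' R' hl'
    cases hl' with
    | V k hk' hxk =>
      have hmem : x' ∈ edge n v k := by rw [hxk]; exact left_mem_segment ℝ _ _
      have hkj : k = j := by
        by_contra h1
        by_cases h2 : k = pv n j
        · exact hx2 (by rw [← h2]; exact hxk)
        · exact hx1 k hk' (hk k hk' h1 h2) hmem
      subst hkj
      subst hxk
      have hf := loc_freq h hl0
      exact ⟨hf.1.mono fun q hq => ⟨hq, hq⟩, hf.2.mono fun q hq => ⟨hq, hq⟩⟩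
    | E k hk' hxk h3 h4 =>
      have hkj : k = j ∨ k = pv n j := by
        by_contra h1
        rw [not_or] at h1
        exact hx1 k hk' (hk k hk' h1.1 h1.2) hxk
      rcases hkj with hkj | hkj
      · subst hkj
        have h0 := orient_of_mem hxk
        have hne := edge_nondeg h hj
        obtain ⟨t, ht, hxt⟩ := seg_param hxk h3
        have hA : orient (v (pv n k)) (v k) x' =
            t * orient (v (pv n k)) (v k) (v (nx n k)) := by
          rw [hxt]; exact orient_add_smul_right _ _ _ _
        have hpB := path_pos (y := nrm (v k) (v (nx n k))) (Or.inr ⟨h0.ge, orient_nrm_slope hne⟩)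
        have hnB := path_neg (y := - nrm (v k) (v (nx n k)))
          (Or.inr ⟨h0.le, orient_neg_nrm_slope hne⟩)
        rcases lt_or_gt_of_ne hs with h5 | h5
        · have hA' : orient (v (pv n k)) (v k) x' < 0 := by rw [hA]; nlinarith
          constructor
          · apply frequently_of_path (y := nrm (v k) (v (nx n k)))
            filter_upwards [hpB] with τ hτ
            exact ⟨Or.inr ⟨h5, Or.inr hτ⟩, hτ⟩
          · apply frequently_of_path (y := - nrm (v k) (v (nx n k)))
            filter_upwards [hnB, path_neg (y := - nrm (v k) (v (nx n k))) (Or.inl hA')]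
              with τ hτ hτ2
            exact ⟨Or.inr ⟨h5, hτ2, hτ⟩, hτ⟩
        · have hA' : 0 < orient (v (pv n k)) (v k) x' := by rw [hA]; positivity
          constructor
          · apply frequently_of_path (y := nrm (v k) (v (nx n k)))
            filter_upwards [hpB, path_pos (y := nrm (v k) (v (nx n k))) (Or.inl hA')]
              with τ hτ hτ2
            exact ⟨Or.inl ⟨h5, hτ2, hτ⟩, hτ⟩
          · apply frequently_of_path (y := - nrm (v k) (v (nx n k)))
            filter_upwards [hnB] with τ hτ
            exact ⟨Or.inl ⟨h5, Or.inr hτ⟩, hτ⟩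
      · subst hkj
        rw [edge_eq, nx_pv hj] at hxk
        rw [nx_pv hj] at h4
        have h0 := orient_of_mem hxk
        have hxk' : x' ∈ segment ℝ (v j) (v (pv n j)) := by rw [segment_symm]; exact hxk
        obtain ⟨t, ht, hxt⟩ := seg_param hxk' h4
        have hB : orient (v j) (v (nx n j)) x' =
            t * orient (v (pv n j)) (v j) (v (nx n j)) := by
          rw [hxt]; exact orient_add_smul_left _ _ _ _
        have hpA := path_pos (y := nrm (v (pv n j)) (v j))
          (Or.inr ⟨h0.ge, orient_nrm_slope (Ne.symm hpj)⟩)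
        have hnA := path_neg (y := - nrm (v (pv n j)) (v j))
          (Or.inr ⟨h0.le, orient_neg_nrm_slope (Ne.symm hpj)⟩)
        rw [nx_pv hj]
        rcases lt_or_gt_of_ne hs with h5 | h5
        · have hB' : orient (v j) (v (nx n j)) x' < 0 := by rw [hB]; nlinarith
          constructor
          · apply frequently_of_path (y := nrm (v (pv n j)) (v j))
            filter_upwards [hpA] with τ hτ
            exact ⟨Or.inr ⟨h5, Or.inl hτ⟩, hτ⟩
          · apply frequently_of_path (y := - nrm (v (pv n j)) (v j))
            filter_upwards [hnA, path_neg (y := - nrm (v (pv n j)) (v j)) (Or.inl hB')]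
              with τ hτ hτ2
            exact ⟨Or.inr ⟨h5, hτ, hτ2⟩, hτ⟩
        · have hB' : 0 < orient (v j) (v (nx n j)) x' := by rw [hB]; positivity
          constructor
          · apply frequently_of_path (y := nrm (v (pv n j)) (v j))
            filter_upwards [hpA, path_pos (y := nrm (v (pv n j)) (v j)) (Or.inl hB')]
              with τ hτ hτ2
            exact ⟨Or.inl ⟨h5, hτ, hτ2⟩, hτ⟩
          · apply frequently_of_path (y := - nrm (v (pv n j)) (v j))
            filter_upwards [hnA] with τ hτ
            exact ⟨Or.inl ⟨h5, Or.inl hτ⟩, hτ⟩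

end simple

end Pool.Agent.H75.PolyJ
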