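import Pool.Agent.H75.PolyJ.Wind

/-!
Elementary facts on simple polygons: the vertices are distinct, two edges meet only at common
vertices; local description of segments near a point.
-/

namespace Pool.Agent.H75.PolyJ

open Set Filter Topology Pool.Agent.H54.Fl

/-- next index -/
def nx (n i : ℕ) : ℕ := (i + 1) % n

/-- previous index -/
def pv (n i : ℕ) : ℕ := (i + (n - 1)) % n

lemma nx_lt {n : ℕ} (hn : 0 < n) (i : ℕ) : nx n i < n := Nat.mod_lt _ hn
lemma pv_lt {n : ℕ} (hn : 0 < n) (i : ℕ) : pv n i < n := Nat.mod_lt _ hn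

lemma nx_cases {n i : ℕ} (hi : i < n) : (i + 1 < n ∧ nx n i = i + 1) ∨ (i + 1 = n ∧ nx n i = 0) := by
  rcases Nat.lt_or_ge (i + 1) n with h | h
  · left; exact ⟨h, Nat.mod_eq_of_lt h⟩
  · right
    have : i + 1 = n := by omega
    refine ⟨this, ?_⟩
    unfold nx; rw [this]; exact Nat.mod_self n

lemma pv_cases {n i : ℕ} (hi : i < n) : (0 < i ∧ pv n i = i - 1) ∨ (i = 0 ∧ pv n i = n - 1) := by
  rcases Nat.eq_zero_or_pos i with h | h
  · right
    refine ⟨h, ?_⟩
    unfold pv; rw [h, zero_add]; exact Nat.mod_eq_of_lt (by omega)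
  · left
    refine ⟨h, ?_⟩
    unfold pv
    have : i + (n - 1) = (i - 1) + n := by omega
    rw [this, Nat.add_mod_right]
    exact Nat.mod_eq_of_lt (by omega)

lemma nx_pv {n i : ℕ} (hi : i < n) : nx n (pv n i) = i := by
  rcases pv_cases hi with ⟨h, h'⟩ | ⟨h, h'⟩
  · rw [h']; rcases nx_cases (show i - 1 < n by omega) with ⟨h1, h2⟩ | ⟨h1, h2⟩ <;> omega
  · rw [h']; rcases nx_cases (show n - 1 < n by omega) with ⟨h1, h2⟩ | ⟨h1, h2⟩ <;> omega

lemma pv_nx {n i : ℕ} (hi : i < n) : pv n (nx n i) = i := by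
  rcases nx_cases hi with ⟨h, h'⟩ | ⟨h, h'⟩
  · rw [h']; rcases pv_cases h with ⟨h1, h2⟩ | ⟨h1, h2⟩ <;> omega
  · rw [h']; rcases pv_cases (show 0 < n by omega) with ⟨h1, h2⟩ | ⟨h1, h2⟩ <;> omega

lemma nx_inj {n i j : ℕ} (hi : i < n) (hj : j < n) (h : nx n i = nx n j) : i = j := by
  rw [← pv_nx hi, ← pv_nx hj, h]

lemma add_two_mod (n i : ℕ) : (i + 2) % n = nx n (nx n i) := by
  unfold nx
  rw [Nat.mod_add_mod]

lemma edge_eq (n : ℕ) (v : ℕ → ℝ × ℝ) (i : ℕ) : edge n v i = segment ℝ (v i) (v (nx n i)) := rfl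

lemma orient_self_left (a b : ℝ × ℝ) : orient a b a = 0 := by unfold orient; ring
lemma orient_self_right (a b : ℝ × ℝ) : orient a b b = 0 := by unfold orient; ring
lemma orient_degen (a c : ℝ × ℝ) : orient a a c = 0 := by unfold orient; ring

section simple

variable {n : ℕ} {v : ℕ → ℝ × ℝ} (h : IsSimplePolygon n v)
include h

lemma pos : 0 < n := by have := h.three_le; omega

lemma gen {i : ℕ} (hi : i < n) : orient (v i) (v (nx n i)) (v (nx n (nx n i))) ≠ 0 := by
  have := h.genuine i hi
  rwa [add_two_mod] at this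

lemma gen' {i : ℕ} (hi : i < n) : orient (v (pv n i)) (v i) (v (nx n i)) ≠ 0 := by
  have := gen h (pv_lt (pos h) i)
  rwa [nx_pv hi] at this

lemma nx_ne {i : ℕ} (hi : i < n) : nx n i ≠ i := by
  have := h.three_le
  rcases nx_cases hi with ⟨h1, h2⟩ | ⟨h1, h2⟩ <;> omega

lemma edge_nondeg {i : ℕ} (hi : i < n) : v i ≠ v (nx n i) := by
  intro he
  apply gen h hi
  rw [← he]; exact orient_degen _ _

/-- two different edges meet only at a common vertex -/
lemma edge_inter {i k : ℕ} (hi : i < n) (hk : k < n) (hik : i ≠ k) {x : ℝ × ℝ}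
    (hx : x ∈ edge n v i) (hx' : x ∈ edge n v k) :
    (nx n i = k ∧ x = v k) ∨ (nx n k = i ∧ x = v i) := by
  by_cases h1 : nx n i = k
  · left
    refine ⟨h1, ?_⟩
    have := h.adjacent i hi
    change edge n v i ∩ edge n v (nx n i) = {v (nx n i)} at this
    rw [h1] at this
    have hm : x ∈ edge n v i ∩ edge n v k := ⟨hx, hx'⟩
    rw [this] at hm
    exact hm
  by_cases h2 : nx n k = i
  · right
    refine ⟨h2, ?_⟩
    have := h.adjacent k hk
    change edge n v k ∩ edge n v (nx n k) = {v (nx n k)} at this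
    rw [h2] at this
    have hm : x ∈ edge n v k ∩ edge n v i := ⟨hx', hx⟩
    rw [this] at hm
    exact hm
  exact absurd hx' (Set.disjoint_left.1 (h.nonadjacent i hi k hk hik h1 h2) hx)

lemma vertex_inj {i k : ℕ} (hi : i < n) (hk : k < n) (he : v i = v k) : i = k := by
  by_contra hik
  have h1 : v i ∈ edge n v i := left_mem_segment ℝ _ _
  have h2 : v i ∈ edge n v k := by rw [he]; exact left_mem_segment ℝ _ _
  rcases edge_inter h hi hk hik h1 h2 with ⟨h3, -⟩ | ⟨h3, -⟩
  · exact edge_nondeg h hi (by rw [h3]; exact he)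
  · exact edge_nondeg h hk (by rw [h3]; exact he.symm)

/-- a vertex lies only on its two edges -/
lemma vertex_mem_edge {j k : ℕ} (hj : j < n) (hk : k < n) (hx : v j ∈ edge n v k) :
    k = j ∨ k = pv n j := by
  by_cases hjk : j = k
  · exact Or.inl hjk.symm
  rcases edge_inter h hj hk hjk (left_mem_segment ℝ _ _) hx with ⟨-, h2⟩ | ⟨h1, -⟩
  · exact absurd (vertex_inj h hj hk h2) hjk
  · right; rw [← h1, pv_nx hk]

end simple

/-- a point of the open segment: near it every point of the line is on the segment -/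
lemma eventually_line_open {a b x : ℝ × ℝ} (hx : x ∈ segment ℝ a b) (ha : x ≠ a) (hb : x ≠ b) :
    ∀ᶠ q in 𝓝 x, orient a b q = 0 → q ∈ segment ℝ a b := by
  have hre : (quo a b x).re < 0 := by
    rcases mem_segment_iff.1 hx with h | h
    · exact absurd h ha
    · rw [Complex.mem_slitPlane_iff, not_or, not_lt, not_not] at h
      rcases lt_or_eq_of_le h.1 with h1 | h1
      · exact h1
      · exfalso
        have h2 : quo a b x = 0 := Complex.ext h1 h.2
        unfold quo at h2
        rcases div_eq_zero_iff.1 h2 with h3 | h3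
        · exact cx_sub_ne (Ne.symm hb) h3
        · exact cx_sub_ne (Ne.symm ha) h3
  have hc : ContinuousAt (fun q => (quo a b q).re) x := by
    have h1 : Continuous (fun q : ℝ × ℝ => (((a, b), q) : ((ℝ × ℝ) × (ℝ × ℝ)) × (ℝ × ℝ))) := by
      fun_prop
    have h2 : ContinuousAt (fun q => quo a b q) x :=
      ContinuousAt.comp (f := fun q : ℝ × ℝ => (((a, b), q) : ((ℝ × ℝ) × (ℝ × ℝ)) × (ℝ × ℝ)))
        (g := fun y : ((ℝ × ℝ) × (ℝ × ℝ)) × (ℝ × ℝ) => quo y.1.1 y.1.2 y.2)
        (continuousAt_quo ha) h1.continuousAt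
    exact Complex.continuous_re.continuousAt.comp h2
  filter_upwards [hc.eventually_lt_const hre] with q hq ho
  rw [mem_segment_iff, Complex.mem_slitPlane_iff, not_or, not_lt, not_not]
  right
  exact ⟨hq.le, by rw [quo_im, ho, zero_div]⟩

lemma orient_of_mem {a b x : ℝ × ℝ} (hx : x ∈ segment ℝ a b) : orient a b x = 0 := by
  obtain ⟨s, t, hs, ht, hst, rfl⟩ := hx
  have : s = 1 - t := by linarith
  subst this
  unfold orient
  simp only [Prod.fst_add, Prod.smul_fst, Prod.snd_add, Prod.smul_snd, smul_eq_mul]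
  ring

/-- near `x` a point of the line `x w` is `x + t (w - x)` with `t < 1` -/
lemma eventually_line_end {x w : ℝ × ℝ} (hxw : x ≠ w) :
    ∀ᶠ q in 𝓝 x, orient x w q = 0 → ∃ t : ℝ, t < 1 ∧ q = x + t • (w - x) := by
  have hN : 0 < (w.1 - x.1) ^ 2 + (w.2 - x.2) ^ 2 := by
    rcases eq_or_ne x.1 w.1 with h1 | h1
    · have h2 : x.2 ≠ w.2 := fun h2 => hxw (Prod.ext h1 h2)
      have : 0 < (w.2 - x.2) ^ 2 := by
        apply sq_pos_of_ne_zero; intro h; exact h2 (by linarith)
      positivity
    · have : 0 < (w.1 - x.1) ^ 2 := by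
        apply sq_pos_of_ne_zero; intro h; exact h1 (by linarith)
      positivity
  set N := (w.1 - x.1) ^ 2 + (w.2 - x.2) ^ 2 with hNd
  have hc : Continuous (fun q : ℝ × ℝ =>
      ((q.1 - x.1) * (w.1 - x.1) + (q.2 - x.2) * (w.2 - x.2)) / N) := by fun_prop
  have h0 : ((x.1 - x.1) * (w.1 - x.1) + (x.2 - x.2) * (w.2 - x.2)) / N < 1 := by
    simp
  filter_upwards [hc.continuousAt.eventually_lt_const h0] with q hq ho
  refine ⟨_, hq, ?_⟩
  unfold orient at ho
  ext
  · simp only [Prod.fst_add, Prod.smul_fst, smul_eq_mul, Prod.fst_sub]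
    have : q.1 * N = x.1 * N +
        ((q.1 - x.1) * (w.1 - x.1) + (q.2 - x.2) * (w.2 - x.2)) * (w.1 - x.1) := by
      rw [hNd]
      linear_combination (-(w.2 - x.2)) * ho
    field_simp
    linarith
  · simp only [Prod.snd_add, Prod.smul_snd, smul_eq_mul, Prod.snd_sub]
    have : q.2 * N = x.2 * N +
        ((q.1 - x.1) * (w.1 - x.1) + (q.2 - x.2) * (w.2 - x.2)) * (w.2 - x.2) := by
      rw [hNd]
      linear_combination ((w.1 - x.1)) * ho
    field_simp
    linarith

lemma orient_add_smul_right (u x w : ℝ × ℝ) (t : ℝ) :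
    orient u x (x + t • (w - x)) = t * orient u x w := by
  unfold orient
  simp only [Prod.fst_add, Prod.smul_fst, Prod.snd_add, Prod.smul_snd, smul_eq_mul, Prod.fst_sub,
    Prod.snd_sub]
  ring

lemma orient_add_smul_left (u x w : ℝ × ℝ) (t : ℝ) :
    orient x w (x + t • (u - x)) = t * orient u x w := by
  unfold orient
  simp only [Prod.fst_add, Prod.smul_fst, Prod.snd_add, Prod.smul_snd, smul_eq_mul, Prod.fst_sub,
    Prod.snd_sub]
  ring

/-- near the end `x` the segment `x w` is a ray; `u` is a point off its line -/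
lemma eventually_seg_right {u x w : ℝ × ℝ} (hs : orient u x w ≠ 0) :
    ∀ᶠ q in 𝓝 x, (q ∈ segment ℝ x w ↔ orient x w q = 0 ∧ 0 ≤ orient u x w * orient u x q) := by
  have hxw : x ≠ w := by
    rintro rfl; exact hs (orient_self_right _ _)
  filter_upwards [eventually_line_end hxw] with q hq
  constructor
  · intro hm
    refine ⟨orient_of_mem hm, ?_⟩
    obtain ⟨s, t, hs', ht, hst, rfl⟩ := hm
    have : s • x + t • w = x + t • (w - x) := by
      have : s = 1 - t := by linarith
      subst this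
      ext <;> simp <;> ring
    rw [this, orient_add_smul_right]
    have : orient u x w * (t * orient u x w) = t * (orient u x w) ^ 2 := by ring
    rw [this]; positivity
  · rintro ⟨h1, h2⟩
    obtain ⟨t, ht, rfl⟩ := hq h1
    rw [orient_add_smul_right] at h2
    have h3 : 0 ≤ t * (orient u x w) ^ 2 := by nlinarith
    have h4 : 0 < (orient u x w) ^ 2 := by positivity
    have ht0 : 0 ≤ t := by
      by_contra h
      push Not at h
      nlinarith
    refine ⟨1 - t, t, by linarith, ht0, by ring, ?_⟩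
    ext <;> simp <;> ring

/-- near the end `x` the segment `u x` is a ray; `w` is a point off its line -/
lemma eventually_seg_left {u x w : ℝ × ℝ} (hs : orient u x w ≠ 0) :
    ∀ᶠ q in 𝓝 x, (q ∈ segment ℝ u x ↔ orient u x q = 0 ∧ 0 ≤ orient u x w * orient x w q) := by
  have hs' : orient w x u ≠ 0 := by
    have : orient w x u = - orient u x w := by unfold orient; ring
    rw [this]; exact neg_ne_zero.2 hs
  filter_upwards [eventually_seg_right hs'] with q hq
  rw [segment_symm, hq]
  have h1 : orient w x u = - orient u x w := by unfold orient; ring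
  have h2 : orient x u q = - orient u x q := orient_swap _ _ _
  have h3 : orient w x q = - orient x w q := orient_swap _ _ _
  rw [h1, h2, h3]
  simp [neg_eq_zero]

end Pool.Agent.H75.PolyJ
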