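import Pool.Agent.H75.PolyJ.Rev

/-!
Splitting a simple polygon along a diagonal: the two parts are simple and counterclockwise, the
winding numbers add up, the region is the union of the two regions.
-/

namespace Pool.Agent.H75.PolyJ

open Set Filter Topology Pool.Agent.H54.Fl
open scoped Real

section any

variable {n : ℕ} {v : ℕ → ℝ × ℝ}

lemma sh_sh (a c : ℕ) : sh n (sh n v a) c = sh n v (a + c) := by
  funext k
  unfold sh
  rw [Nat.add_mod_mod, Nat.add_assoc]

/-- the edges of the first part -/
lemma edge_part {j i : ℕ} (hj : j < n) (hi : i < j) : edge (j + 1) v i = edge n v i := by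
  rw [edge_eq, edge_eq]
  have h1 : nx (j + 1) i = i + 1 := Nat.mod_eq_of_lt (by omega)
  have h2 : nx n i = i + 1 := Nat.mod_eq_of_lt (by omega)
  rw [h1, h2]

lemma edge_part_last {j : ℕ} : edge (j + 1) v j = segment ℝ (v j) (v 0) := by
  rw [edge_eq]
  have h1 : nx (j + 1) j = 0 := Nat.mod_self _
  rw [h1]

lemma mem_curve_part {j : ℕ} (hj : j < n) {p : ℝ × ℝ} :
    p ∈ curve (j + 1) v ↔ (∃ i < j, p ∈ edge n v i) ∨ p ∈ segment ℝ (v 0) (v j) := by
  constructor
  · rintro ⟨i, hi, hp⟩
    rcases Nat.lt_or_ge i j with h1 | h1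
    · left; exact ⟨i, h1, by rw [← edge_part hj h1]; exact hp⟩
    · right
      have : i = j := by omega
      subst this
      rw [edge_part_last, segment_symm] at hp
      exact hp
  · rintro (⟨i, hi, hp⟩ | hp)
    · exact ⟨i, by omega, by rw [edge_part hj hi]; exact hp⟩
    · exact ⟨j, by omega, by rw [edge_part_last, segment_symm]; exact hp⟩

lemma edge_sh {s i : ℕ} : edge n (sh n v s) i = edge n v ((s + i) % n) := by
  rw [edge_eq, edge_eq]
  unfold sh nx
  rw [Nat.add_mod_mod, Nat.mod_add_mod]
  rfl

/-- the second part: vertices `j, j + 1, …, n - 1, 0` -/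
lemma mem_curve_part2 {j : ℕ} (hj0 : 0 < j) (hj : j < n) {p : ℝ × ℝ} :
    p ∈ curve (n - j + 1) (sh n v j) ↔
      (∃ i, j ≤ i ∧ i < n ∧ p ∈ edge n v i) ∨ p ∈ segment ℝ (v 0) (v j) := by
  rw [mem_curve_part (n := n) (by omega)]
  have e0 : sh n v j 0 = v j := by unfold sh; rw [Nat.add_zero, Nat.mod_eq_of_lt hj]
  have e1 : sh n v j (n - j) = v 0 := by
    unfold sh
    have : j + (n - j) = n := by omega
    rw [this, Nat.mod_self]
  rw [e0, e1, segment_symm]
  constructor
  · rintro (⟨i, hi, hp⟩ | hp)
    · left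
      rw [edge_sh, Nat.mod_eq_of_lt (by omega)] at hp
      exact ⟨j + i, by omega, by omega, hp⟩
    · right; exact hp
  · rintro (⟨i, hi, hi2, hp⟩ | hp)
    · left
      refine ⟨i - j, by omega, ?_⟩
      rw [edge_sh]
      have : j + (i - j) = i := by omega
      rw [this, Nat.mod_eq_of_lt hi2]
      exact hp
    · right; exact hp

lemma curve_parts {j : ℕ} (hj0 : 0 < j) (hj : j < n) :
    curve (j + 1) v ∪ curve (n - j + 1) (sh n v j) = curve n v ∪ segment ℝ (v 0) (v j) := by
  ext p
  rw [mem_union, mem_union, mem_curve_part hj, mem_curve_part2 hj0 hj]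
  constructor
  · rintro ((⟨i, hi, hp⟩ | hp) | (⟨i, hi, hi2, hp⟩ | hp))
    · left; exact ⟨i, by omega, hp⟩
    · right; exact hp
    · left; exact ⟨i, by omega, hp⟩
    · right; exact hp
  · rintro (⟨i, hi, hp⟩ | hp)
    · rcases Nat.lt_or_ge i j with h1 | h1
      · left; left; exact ⟨i, h1, hp⟩
      · right; left; exact ⟨i, h1, hi, hp⟩
    · left; right; exact hp

/-- the angle sums add up -/
theorem angSum_parts {j : ℕ} (hj : j < n) (p : ℝ × ℝ) :
    angSum (j + 1) v p + angSum (n - j + 1) (sh n v j) p =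
      angSum n v p + (ang (v j) (v 0) p + ang (v 0) (v j) p) := by
  have h1 : angSum (j + 1) v p =
      ∑ i ∈ Finset.range j, ang (v i) (v ((i + 1) % n)) p + ang (v j) (v 0) p := by
    unfold angSum
    rw [Finset.sum_range_succ, Nat.mod_self]
    congr 1
    apply Finset.sum_congr rfl
    intro i hi
    have hi' := Finset.mem_range.1 hi
    rw [Nat.mod_eq_of_lt (show i + 1 < j + 1 by omega), Nat.mod_eq_of_lt (show i + 1 < n by omega)]
  have h2 : angSum (n - j + 1) (sh n v j) p =
      ∑ i ∈ Finset.range (n - j), ang (v (j + i)) (v ((j + i + 1) % n)) p +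
        ang (v 0) (v j) p := by
    unfold angSum
    rw [Finset.sum_range_succ, Nat.mod_self]
    have e0 : sh n v j 0 = v j := by unfold sh; rw [Nat.add_zero, Nat.mod_eq_of_lt hj]
    have e1 : sh n v j (n - j) = v 0 := by
      unfold sh
      have : j + (n - j) = n := by omega
      rw [this, Nat.mod_self]
    rw [e0, e1]
    congr 1
    apply Finset.sum_congr rfl
    intro i hi
    have hi' := Finset.mem_range.1 hi
    rw [Nat.mod_eq_of_lt (show i + 1 < n - j + 1 by omega)]
    unfold sh
    rw [Nat.mod_eq_of_lt (show j + i < n by omega), Nat.add_assoc]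
  have h3 : angSum n v p = ∑ i ∈ Finset.range j, ang (v i) (v ((i + 1) % n)) p +
      ∑ i ∈ Finset.range (n - j), ang (v (j + i)) (v ((j + i + 1) % n)) p := by
    unfold angSum
    have : n = j + (n - j) := by omega
    conv_lhs => rw [this, Finset.sum_range_add]
    congr 1
    · apply Finset.sum_congr rfl
      intro i _
      rw [← this]
    · apply Finset.sum_congr rfl
      intro i _
      rw [← this]
  rw [h1, h2, h3]
  ring

/-- the winding numbers of the two parts add up -/
theorem wind_parts {j : ℕ} (hj0 : 0 < j) (hj : j < n) {p : ℝ × ℝ} (hp : p ∉ curve n v)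
    (hp2 : p ∉ segment ℝ (v 0) (v j)) :
    p ∉ curve (j + 1) v ∧ p ∉ curve (n - j + 1) (sh n v j) ∧
    wind (j + 1) v p + wind (n - j + 1) (sh n v j) p = wind n v p := by
  have hu : p ∉ curve (j + 1) v ∪ curve (n - j + 1) (sh n v j) := by
    rw [curve_parts hj0 hj]
    rintro (h | h)
    · exact hp h
    · exact hp2 h
  have h1 : p ∉ curve (j + 1) v := fun h => hu (Or.inl h)
  have h2 : p ∉ curve (n - j + 1) (sh n v j) := fun h => hu (Or.inr h)
  refine ⟨h1, h2, ?_⟩
  have e1 := angSum_eq h1
  have e2 := angSum_eq h2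
  have e3 := angSum_eq hp
  have e4 := angSum_parts (n := n) (v := v) hj p
  rw [ang_swap hp2, neg_add_cancel, add_zero, e1, e2, e3] at e4
  have h3 : (2 * π) * ((wind (j + 1) v p : ℝ) + wind (n - j + 1) (sh n v j) p) =
      (2 * π) * (wind n v p : ℝ) := by linarith
  have h4 := mul_left_cancel₀ (by positivity : (2 * π) ≠ 0) h3
  exact_mod_cast h4

end any

section simple

variable {n : ℕ} {v : ℕ → ℝ × ℝ} (h : IsSimplePolygon n v)
include h

lemma diag_meet {j : ℕ} (hj2 : 2 ≤ j) (hjn : j + 2 ≤ n)
    (hd : ∀ p ∈ segment ℝ (v 0) (v j), p ≠ v 0 → p ≠ v j → p ∉ curve n v) {i : ℕ} (hi : i < j)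
    {x : ℝ × ℝ} (hx : x ∈ edge n v i) (hx2 : x ∈ segment ℝ (v j) (v 0)) :
    (x = v 0 ∧ i = 0) ∨ (x = v j ∧ i = j - 1) := by
  rw [segment_symm] at hx2
  by_cases h1 : x = v 0
  · left
    refine ⟨h1, ?_⟩
    rw [h1] at hx
    rcases vertex_mem_edge h (pos h) (show i < n by omega) hx with h3 | h3
    · exact h3
    · rcases pv_cases (pos h) with ⟨h4, -⟩ | ⟨-, h4⟩ <;> omega
  by_cases h2 : x = v j
  · right
    refine ⟨h2, ?_⟩
    rw [h2] at hx
    rcases vertex_mem_edge h (show j < n by omega) (show i < n by omega) hx with h3 | h3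
    · omega
    · rcases pv_cases (show j < n by omega) with ⟨-, h4⟩ | ⟨h4, -⟩ <;> omega
  · exact absurd ⟨i, by omega, hx⟩ (hd x hx2 h1 h2)

/-- the first part of a split along a diagonal is a simple polygon -/
theorem simple_part {j : ℕ} (hj2 : 2 ≤ j) (hjn : j + 2 ≤ n)
    (hd : ∀ p ∈ segment ℝ (v 0) (v j), p ≠ v 0 → p ≠ v j → p ∉ curve n v)
    (g0 : orient (v j) (v 0) (v 1) ≠ 0) (gj : orient (v (j - 1)) (v j) (v 0) ≠ 0) :
    IsSimplePolygon (j + 1) v := by
  have hj : j < n := by omega
  have ne0 : v 0 ≠ v j := fun he => by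
    have := vertex_inj h (pos h) hj he; omega
  refine ⟨by omega, ?_, ?_, ?_⟩
  · intro i hi
    rcases Nat.lt_or_ge (i + 1) j with h1 | h1
    · have e : (i + 1) % (j + 1) = i + 1 := Nat.mod_eq_of_lt (by omega)
      have e' : (i + 1) % n = i + 1 := Nat.mod_eq_of_lt (by omega)
      rw [e, edge_part hj (show i < j by omega), edge_part hj h1]
      have := h.adjacent i (by omega)
      rwa [e'] at this
    · rcases Nat.lt_or_ge i j with h2 | h2
      · have e0 : i + 1 = j := by omega
        have e : (i + 1) % (j + 1) = j := by rw [e0]; exact Nat.mod_eq_of_lt (by omega)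
        have hne : v 0 ≠ v j := ne0
        rw [e, edge_part hj h2, edge_part_last]
        ext x
        constructor
        · rintro ⟨hx1, hx2⟩
          rcases diag_meet h hj2 hjn hd h2 hx1 hx2 with ⟨-, h3⟩ | ⟨h3, -⟩
          · omega
          · exact h3
        · intro hx
          rw [mem_singleton_iff] at hx
          subst hx
          refine ⟨?_, left_mem_segment ℝ _ _⟩
          rw [edge_eq]
          have : nx n i = j := by
            rw [← e0]; exact Nat.mod_eq_of_lt (by omega)
          rw [this]; exact right_mem_segment ℝ _ _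
      · have e0 : i = j := by omega
        rw [e0, Nat.mod_self, edge_part hj (show 0 < j by omega), edge_part_last]
        ext x
        constructor
        · rintro ⟨hx1, hx2⟩
          rcases diag_meet h hj2 hjn hd (show 0 < j by omega) hx2 hx1 with ⟨h3, -⟩ | ⟨-, h3⟩
          · exact h3
          · omega
        · intro hx
          rw [mem_singleton_iff] at hx
          subst hx
          exact ⟨right_mem_segment ℝ _ _, left_mem_segment ℝ _ _⟩
  · intro i hi k hk hik h1 h2
    have key : ∀ i < j, i ≠ 0 → i ≠ j - 1 →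
        Disjoint (edge n v i) (segment ℝ (v j) (v 0)) := by
      intro i hi h3 h4
      rw [Set.disjoint_left]
      intro x hx1 hx2
      rcases diag_meet h hj2 hjn hd hi hx1 hx2 with ⟨-, h5⟩ | ⟨-, h5⟩ <;> omega
    rcases Nat.lt_or_ge i j with h3 | h3
    · have e1 : (i + 1) % (j + 1) = i + 1 := Nat.mod_eq_of_lt (by omega)
      rw [e1] at h1
      rcases Nat.lt_or_ge k j with h4 | h4
      · have e2 : (k + 1) % (j + 1) = k + 1 := Nat.mod_eq_of_lt (by omega)
        rw [e2] at h2
        rw [edge_part hj h3, edge_part hj h4]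
        apply h.nonadjacent i (by omega) k (by omega) hik
        · rw [Nat.mod_eq_of_lt (by omega)]; exact h1
        · rw [Nat.mod_eq_of_lt (by omega)]; exact h2
      · have e0 : k = j := by omega
        subst e0
        rw [Nat.mod_self] at h2
        rw [edge_part hj h3, edge_part_last]
        exact key i h3 (fun h => h2 h.symm) (by omega)
    · have e0 : i = j := by omega
      subst e0
      rw [Nat.mod_self] at h1
      have h4 : k < i := by omega
      have e2 : (k + 1) % (i + 1) = k + 1 := Nat.mod_eq_of_lt (by omega)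
      rw [e2] at h2
      rw [edge_part hj h4, edge_part_last]
      exact (key k h4 (fun h => h1 h.symm) (by omega)).symm
  · intro i hi
    rcases Nat.lt_or_ge (i + 1) j with h1 | h1
    · have e1 : (i + 1) % (j + 1) = i + 1 := Nat.mod_eq_of_lt (by omega)
      have e2 : (i + 2) % (j + 1) = i + 2 := Nat.mod_eq_of_lt (by omega)
      have e3 : (i + 1) % n = i + 1 := Nat.mod_eq_of_lt (by omega)
      have e4 : (i + 2) % n = i + 2 := Nat.mod_eq_of_lt (by omega)
      rw [e1, e2]
      have := h.genuine i (by omega)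
      rwa [e3, e4] at this
    · rcases Nat.lt_or_ge i j with h2 | h2
      · have e0 : i = j - 1 := by omega
        have e1 : (i + 1) % (j + 1) = j := by
          have : i + 1 = j := by omega
          rw [this]; exact Nat.mod_eq_of_lt (by omega)
        have e2 : (i + 2) % (j + 1) = 0 := by
          have : i + 2 = j + 1 := by omega
          rw [this]; exact Nat.mod_self _
        rw [e1, e2, e0]
        exact gj
      · have e0 : i = j := by omega
        have e1 : (i + 1) % (j + 1) = 0 := by rw [e0]; exact Nat.mod_self _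
        have e2 : (i + 2) % (j + 1) = 1 := by
          have : i + 2 = 1 + (j + 1) := by omega
          rw [this, Nat.add_mod_right]; exact Nat.mod_eq_of_lt (by omega)
        rw [e1, e2, e0]
        exact g0

omit h in
lemma sh_at {j k : ℕ} (hk : j + k < n) : sh n v j k = v (j + k) := by
  unfold sh; rw [Nat.mod_eq_of_lt hk]

omit h in
lemma sh_wrap {j : ℕ} (hj : j < n) : sh n v j (n - j) = v 0 := by
  unfold sh
  have : j + (n - j) = n := by omega
  rw [this, Nat.mod_self]

/-- the second part of a split along a diagonal is a simple polygon -/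
theorem simple_part2 {j : ℕ} (hj2 : 2 ≤ j) (hjn : j + 2 ≤ n)
    (hd : ∀ p ∈ segment ℝ (v 0) (v j), p ≠ v 0 → p ≠ v j → p ∉ curve n v)
    (g0 : orient (v 0) (v j) (v (j + 1)) ≠ 0) (gj : orient (v (n - 1)) (v 0) (v j) ≠ 0) :
    IsSimplePolygon (n - j + 1) (sh n v j) := by
  have hj : j < n := by omega
  have e0 : sh n v j 0 = v j := by rw [sh_at (by omega), Nat.add_zero]
  have e1 : sh n v j (n - j) = v 0 := sh_wrap hj
  have e2 : sh n v j 1 = v (j + 1) := sh_at (by omega)
  have e3 : sh n v j (n - j - 1) = v (n - 1) := by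
    rw [sh_at (by omega)]
    congr 1; omega
  apply simple_part (simple_sh h j) (j := n - j) (by omega) (by omega)
  · rw [e0, e1, curve_sh h]
    intro p hp h1 h2
    rw [segment_symm] at hp
    exact hd p hp h2 h1
  · rw [e0, e1, e2]; exact g0
  · rw [e0, e1, e3]; exact gj

end simple

/-- Data of a split of the counterclockwise simple polygon `v` along the inner diagonal from
`v 0` to `v j` -/
structure Split (n : ℕ) (v : ℕ → ℝ × ℝ) (j : ℕ) : Prop where
  two_le : 2 ≤ j
  le_n : j + 2 ≤ n
  diag : ∀ p ∈ segment ℝ (v 0) (v j), p ≠ v 0 → p ≠ v j → p ∈ inner n v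
  gen1 : orient (v j) (v 0) (v 1) ≠ 0
  gen2 : orient (v (j - 1)) (v j) (v 0) ≠ 0
  gen3 : orient (v 0) (v j) (v (j + 1)) ≠ 0
  gen4 : orient (v (n - 1)) (v 0) (v j) ≠ 0

section split

variable {n : ℕ} {v : ℕ → ℝ × ℝ} (h : IsSimplePolygon n v) (hc : CCW n v) {j : ℕ}
  (s : Split n v j)
include h s

lemma Split.simple1 : IsSimplePolygon (j + 1) v :=
  simple_part h s.two_le s.le_n (fun p hp h1 h2 => (s.diag p hp h1 h2).1) s.gen1 s.gen2

lemma Split.simple2 : IsSimplePolygon (n - j + 1) (sh n v j) :=
  simple_part2 h s.two_le s.le_n (fun p hp h1 h2 => (s.diag p hp h1 h2).1) s.gen3 s.gen4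

lemma Split.diag_subset : segment ℝ (v 0) (v j) ⊆ region n v := by
  intro p hp
  by_cases h1 : p = v 0
  · rw [h1]; exact curve_subset_region h ⟨0, pos h, left_mem_segment ℝ _ _⟩
  by_cases h2 : p = v j
  · rw [h2]
    exact curve_subset_region h ⟨j, by have := s.le_n; omega, left_mem_segment ℝ _ _⟩
  · exact inner_subset_region h (s.diag p hp h1 h2)

include hc

/-- both parts are counterclockwise -/
theorem Split.ccw : CCW (j + 1) v ∧ CCW (n - j + 1) (sh n v j) := by
  have h1 := s.simple1 h
  have h2 := s.simple2 h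
  have hj2 := s.two_le
  have hjn := s.le_n
  have hj : j < n := by omega
  have ne0 : v 0 ≠ v j := fun he => by
    have := vertex_inj h (pos h) hj he; omega
  -- the midpoint of the diagonal
  set m : ℝ × ℝ := (1 / 2 : ℝ) • v 0 + (1 / 2 : ℝ) • v j with hm
  have hms : m ∈ segment ℝ (v 0) (v j) :=
    ⟨1 / 2, 1 / 2, by norm_num, by norm_num, by norm_num, rfl⟩
  have hm0 : m ≠ v 0 := by
    intro he
    apply ne0
    have h1 := congrArg Prod.fst he
    have h2 := congrArg Prod.snd he
    simp only [hm, Prod.fst_add, Prod.smul_fst, Prod.snd_add, Prod.smul_snd, smul_eq_mul] at h1 h2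
    ext <;> linarith
  have hmj : m ≠ v j := by
    intro he
    apply ne0
    have h1 := congrArg Prod.fst he
    have h2 := congrArg Prod.snd he
    simp only [hm, Prod.fst_add, Prod.smul_fst, Prod.snd_add, Prod.smul_snd, smul_eq_mul] at h1 h2
    ext <;> linarith
  have hmi := s.diag m hms hm0 hmj
  have hmi' := (mem_inner_iff h hc).1 hmi
  have hnear := wind_eventually hmi'.1
  -- part 1
  have hm1 : m ∈ edge (j + 1) v j := by rw [edge_part_last, segment_symm]; exact hms
  have hn1 : nx (j + 1) j = 0 := Nat.mod_self _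
  have hE1 := IsLoc.E (n := j + 1) (v := v) (x := m) j (by omega) hm1 hmj (by rw [hn1]; exact hm0)
  have hw1 := (wL_spec h1).1 m ⟨j, by omega, hm1⟩ _ _ hE1
  have hf1 := loc_freq h1 hE1
  -- part 2
  have e0 : sh n v j 0 = v j := by rw [sh_at (by omega), Nat.add_zero]
  have e1 : sh n v j (n - j) = v 0 := sh_wrap hj
  have hm2 : m ∈ edge (n - j + 1) (sh n v j) (n - j) := by
    rw [edge_part_last, e0, e1]; exact hms
  have hn2 : nx (n - j + 1) (n - j) = 0 := Nat.mod_self _
  have hE2 := IsLoc.E (n := n - j + 1) (v := sh n v j) (x := m) (n - j) (by omega) hm2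
    (by rw [e1]; exact hm0) (by rw [hn2, e0]; exact hmj)
  have hw2 := (wL_spec h2).1 m ⟨n - j, by omega, hm2⟩ _ _ hE2
  -- combine on the left side of part 1
  obtain ⟨q, ⟨⟨hq0, hq1⟩, hq2⟩, hq3⟩ :=
    (((hf1.1.and_eventually hw1).and_eventually hw2).and_eventually hnear).exists
  have k1 := hq1.1 hq0
  rw [hn1] at hq0
  rw [hn2, e0, e1] at hq2
  have hq0' : 0 < orient (v j) (v 0) q := hq0
  have hR : orient (v 0) (v j) q < 0 := by rw [orient_swap (v j) (v 0)]; linarith
  have k2 := hq2.2 hR
  have hseg : q ∉ segment ℝ (v 0) (v j) := by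
    intro hq
    have := orient_of_mem hq
    linarith
  have hadd := (wind_parts (by omega) hj hq3.1 hseg).2.2
  rw [hq3.2, hmi'.2, k1.2, k2.2] at hadd
  have a1 := wL_eq h1
  have a2 := wL_eq h2
  constructor
  · apply ccw_of_wL h1
    rcases a1 with a1 | a1 <;> rcases a2 with a2 | a2 <;> omega
  · apply ccw_of_wL h2
    rcases a1 with a1 | a1 <;> rcases a2 with a2 | a2 <;> omega

/-- the region is the union of the regions of the two parts -/
theorem Split.region_eq : region n v = region (j + 1) v ∪ region (n - j + 1) (sh n v j) := by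
  have h1 := s.simple1 h
  have h2 := s.simple2 h
  obtain ⟨c1, c2⟩ := s.ccw h hc
  have hj2 := s.two_le
  have hjn := s.le_n
  have hj : j < n := by omega
  ext p
  by_cases hp : p ∈ curve n v ∪ segment ℝ (v 0) (v j)
  · have e1 : p ∈ region n v := by
      rcases hp with hp | hp
      · exact curve_subset_region h hp
      · exact s.diag_subset h hp
    have e2 : p ∈ region (j + 1) v ∪ region (n - j + 1) (sh n v j) := by
      rw [← curve_parts (by omega) hj] at hp
      rcases hp with hp | hp
      · exact Or.inl (curve_subset_region h1 hp)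
      · exact Or.inr (curve_subset_region h2 hp)
    exact ⟨fun _ => e2, fun _ => e1⟩
  · have hp1 : p ∉ curve n v := fun h => hp (Or.inl h)
    have hp2 : p ∉ segment ℝ (v 0) (v j) := fun h => hp (Or.inr h)
    obtain ⟨k1, k2, k3⟩ := wind_parts (by omega) hj hp1 hp2
    rw [mem_union, mem_region_iff h, mem_region_iff h1, mem_region_iff h2]
    have w1 := wind_of_ccw h1 c1 k1
    have w2 := wind_of_ccw h2 c2 k2
    constructor
    · rintro (h3 | h3)
      · exact absurd h3 hp1
      · rcases w1 with w1 | w1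
        · right; right; omega
        · left; right; omega
    · rintro ((h3 | h3) | (h3 | h3))
      · exact absurd h3 k1
      · right; omega
      · exact absurd h3 k2
      · right; omega

/-- the inside of a part is inside, and off the other part -/
theorem Split.inner1 {p : ℝ × ℝ} (hp : p ∈ inner (j + 1) v) :
    p ∈ inner n v ∧ p ∉ region (n - j + 1) (sh n v j) := by
  have h1 := s.simple1 h
  have h2 := s.simple2 h
  obtain ⟨c1, c2⟩ := s.ccw h hc
  have hj2 := s.two_le
  have hjn := s.le_n
  have hj : j < n := by omega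
  have hreg := s.region_eq h hc
  have hpc : p ∉ curve n v := by
    intro hp2
    have hf := (frequently_inner h hp2).2
    obtain ⟨q, hq1, hq2⟩ := (hf.and_eventually ((isOpen_inner (j + 1) v).mem_nhds hp)).exists
    apply hq1
    rw [hreg]
    exact Or.inl (inner_subset_region h1 hq2)
  have hps : p ∉ segment ℝ (v 0) (v j) := by
    intro hp2
    apply hp.1
    rw [mem_curve_part hj]
    exact Or.inr hp2
  obtain ⟨k1, k2, k3⟩ := wind_parts (by omega) hj hpc hps
  have hw1 := ((mem_inner_iff h1 c1).1 hp).2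
  have hw := wind_of_ccw h hc hpc
  have hw2 := wind_of_ccw h2 c2 k2
  constructor
  · rw [mem_inner_iff h hc]
    refine ⟨hpc, ?_⟩
    rcases hw with hw | hw
    · rcases hw2 with hw2 | hw2 <;> omega
    · exact hw
  · rw [notMem_region_iff h2]
    refine ⟨k2, ?_⟩
    rcases hw with hw | hw
    · rcases hw2 with hw2 | hw2 <;> omega
    · omega

end split

end Pool.Agent.H75.PolyJ
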