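import Pool.Agent.H54.Fl.Defs

/-!
The winding number of a closed polygonal curve around a point, as a sum of `Complex.arg`.
It is an integer off the curve, jointly continuous in the vertices and the point, vanishes far
away and jumps by one across an edge.
-/

namespace Pool.Agent.H75.PolyJ

open Set Filter Topology Pool.Agent.H54.Fl
open scoped Real

/-- points of the plane as complex numbers -/
def cx (p : ℝ × ℝ) : ℂ := ⟨p.1, p.2⟩

/-- the quotient whose argument is the angle under which the edge `a b` is seen from `p` -/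
noncomputable def quo (a b p : ℝ × ℝ) : ℂ := (cx b - cx p) / (cx a - cx p)

/-- the oriented angle under which the edge `a b` is seen from `p` -/
noncomputable def ang (a b p : ℝ × ℝ) : ℝ := (quo a b p).arg

/-- sum of the angles under which the edges are seen from `p` -/
noncomputable def angSum (n : ℕ) (v : ℕ → ℝ × ℝ) (p : ℝ × ℝ) : ℝ :=
  ∑ i ∈ Finset.range n, ang (v i) (v ((i + 1) % n)) p

/-- winding number of the closed polygon `v 0, …, v (n - 1)` around `p` -/
noncomputable def wind (n : ℕ) (v : ℕ → ℝ × ℝ) (p : ℝ × ℝ) : ℤ := round (angSum n v p / (2 * π))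

lemma orient_swap (a b p : ℝ × ℝ) : orient b a p = - orient a b p := by
  unfold orient; ring

lemma orient_cyc (a b c : ℝ × ℝ) : orient b c a = orient a b c := by
  unfold orient; ring

lemma continuous_orient (a b : ℝ × ℝ) : Continuous (fun q => orient a b q) := by
  unfold orient; fun_prop

@[fun_prop] lemma continuous_cx : Continuous cx := by
  have h : cx = fun p : ℝ × ℝ => (p.1 : ℂ) + (p.2 : ℂ) * Complex.I := by
    funext p
    apply Complex.ext <;> simp [cx]
  rw [h]
  fun_prop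

lemma cx_injective : Function.Injective cx := by
  intro p q h
  have h1 := congrArg Complex.re h
  have h2 := congrArg Complex.im h
  exact Prod.ext h1 h2

lemma cx_sub_ne {p q : ℝ × ℝ} (h : p ≠ q) : cx p - cx q ≠ 0 := by
  intro h1
  exact h (cx_injective (sub_eq_zero.1 h1))

lemma cx_sub_re (p q : ℝ × ℝ) : (cx p - cx q).re = p.1 - q.1 := by simp [cx]
lemma cx_sub_im (p q : ℝ × ℝ) : (cx p - cx q).im = p.2 - q.2 := by simp [cx]

lemma normSq_pos {p q : ℝ × ℝ} (h : p ≠ q) : 0 < Complex.normSq (cx p - cx q) :=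
  Complex.normSq_pos.2 (cx_sub_ne h)

lemma quo_im (a b p : ℝ × ℝ) :
    (quo a b p).im = orient a b p / Complex.normSq (cx a - cx p) := by
  unfold quo
  rw [Complex.div_im, cx_sub_re, cx_sub_im, cx_sub_re, cx_sub_im]
  unfold orient
  ring

lemma quo_re (a b p : ℝ × ℝ) : (quo a b p).re =
    ((b.1 - p.1) * (a.1 - p.1) + (b.2 - p.2) * (a.2 - p.2)) /
      Complex.normSq (cx a - cx p) := by
  unfold quo
  rw [Complex.div_re, cx_sub_re, cx_sub_im, cx_sub_re, cx_sub_im]
  ring

/-- on the segment: `p = a` or the quotient is a nonpositive real -/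
lemma mem_segment_iff {a b p : ℝ × ℝ} :
    p ∈ segment ℝ a b ↔ p = a ∨ quo a b p ∉ Complex.slitPlane := by
  constructor
  · rintro ⟨s, t, hs, ht, hst, rfl⟩
    rcases eq_or_lt_of_le ht with h0 | h0
    · left
      have : s = 1 := by linarith
      rw [this, ← h0]; simp
    · by_cases hab : a = b
      · left
        rw [← hab, ← add_smul, hst, one_smul]
      right
      intro hm
      rw [Complex.mem_slitPlane_iff] at hm
      have hs1 : s = 1 - t := by linarith
      have hp : a ≠ s • a + t • b := by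
        intro h
        apply hab
        have h1 := congrArg Prod.fst h
        have h2 := congrArg Prod.snd h
        simp only [Prod.fst_add, Prod.smul_fst, Prod.snd_add, Prod.smul_snd, smul_eq_mul] at h1 h2
        rw [hs1] at h1 h2
        ext
        · have : t * (a.1 - b.1) = 0 := by linarith
          rcases mul_eq_zero.1 this with h | h
          · exact absurd h h0.ne'
          · linarith
        · have : t * (a.2 - b.2) = 0 := by linarith
          rcases mul_eq_zero.1 this with h | h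
          · exact absurd h h0.ne'
          · linarith
      have hN := normSq_pos hp
      have ho : orient a b (s • a + t • b) = 0 := by
        unfold orient
        simp only [Prod.fst_add, Prod.smul_fst, Prod.snd_add, Prod.smul_snd, smul_eq_mul]
        rw [hs1]; ring
      rcases hm with h | h
      · rw [quo_re] at h
        have h2 := (div_pos_iff_of_pos_right hN).1 h
        simp only [Prod.fst_add, Prod.smul_fst, Prod.snd_add, Prod.smul_snd, smul_eq_mul] at h2
        rw [hs1] at h2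
        have h3 : (b.1 - ((1 - t) * a.1 + t * b.1)) * (a.1 - ((1 - t) * a.1 + t * b.1)) +
            (b.2 - ((1 - t) * a.2 + t * b.2)) * (a.2 - ((1 - t) * a.2 + t * b.2)) =
            - (t * (1 - t)) * ((b.1 - a.1) ^ 2 + (b.2 - a.2) ^ 2) := by ring
        rw [h3] at h2
        have h4 : 0 ≤ t * (1 - t) := mul_nonneg h0.le (by linarith)
        nlinarith [sq_nonneg (b.1 - a.1), sq_nonneg (b.2 - a.2),
          mul_nonneg h4 (add_nonneg (sq_nonneg (b.1 - a.1)) (sq_nonneg (b.2 - a.2)))]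
      · rw [quo_im, ho, zero_div] at h
        exact h rfl
  · rintro (h | h)
    · rw [h]; exact left_mem_segment ℝ a b
    · by_cases hpa : p = a
      · rw [hpa]; exact left_mem_segment ℝ a b
      rw [Complex.mem_slitPlane_iff, not_or, not_lt, not_not] at h
      obtain ⟨h1, h2⟩ := h
      have hne : cx a - cx p ≠ 0 := cx_sub_ne (Ne.symm hpa)
      set t : ℝ := - (quo a b p).re with ht
      have ht0 : 0 ≤ t := by rw [ht]; linarith
      have hq : quo a b p = ((-t : ℝ) : ℂ) := by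
        apply Complex.ext
        · rw [ht]; simp
        · rw [h2]; simp
      have hB : cx b - cx p = ((-t : ℝ) : ℂ) * (cx a - cx p) := by
        rw [← hq]; unfold quo; field_simp
      have hr := congrArg Complex.re hB
      have hi := congrArg Complex.im hB
      rw [Complex.re_ofReal_mul, cx_sub_re, cx_sub_re] at hr
      rw [Complex.im_ofReal_mul, cx_sub_im, cx_sub_im] at hi
      have h1t : 0 < 1 + t := by linarith
      refine ⟨t / (1 + t), 1 / (1 + t), by positivity, by positivity, by field_simp; ring, ?_⟩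
      ext
      · simp only [Prod.fst_add, Prod.smul_fst, smul_eq_mul]
        field_simp
        linarith
      · simp only [Prod.snd_add, Prod.smul_snd, smul_eq_mul]
        field_simp
        linarith

lemma slit_of_notMem {a b p : ℝ × ℝ} (h : p ∉ segment ℝ a b) : quo a b p ∈ Complex.slitPlane := by
  by_contra h1
  exact h (mem_segment_iff.2 (Or.inr h1))

lemma ne_left_of_notMem {a b p : ℝ × ℝ} (h : p ∉ segment ℝ a b) : p ≠ a := by
  rintro rfl; exact h (left_mem_segment ℝ _ _)

lemma continuousAt_quo {a b p : ℝ × ℝ} (h : p ≠ a) :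
    ContinuousAt (fun x : ((ℝ × ℝ) × (ℝ × ℝ)) × (ℝ × ℝ) => quo x.1.1 x.1.2 x.2) ((a, b), p) := by
  unfold quo
  apply ContinuousAt.div
  · fun_prop
  · fun_prop
  · exact cx_sub_ne (Ne.symm h)

lemma eventually_notMem_segment {a b p : ℝ × ℝ} (h : p ∉ segment ℝ a b) :
    ∀ᶠ x : ((ℝ × ℝ) × (ℝ × ℝ)) × (ℝ × ℝ) in 𝓝 ((a, b), p), x.2 ∉ segment ℝ x.1.1 x.1.2 := by
  have h1 := continuousAt_quo (b := b) (ne_left_of_notMem h)
  have h2 : ∀ᶠ x : ((ℝ × ℝ) × (ℝ × ℝ)) × (ℝ × ℝ) in 𝓝 ((a, b), p),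
      quo x.1.1 x.1.2 x.2 ∈ Complex.slitPlane :=
    h1.eventually (Complex.isOpen_slitPlane.mem_nhds (slit_of_notMem h))
  have h3 : ∀ᶠ x : ((ℝ × ℝ) × (ℝ × ℝ)) × (ℝ × ℝ) in 𝓝 ((a, b), p), x.2 ≠ x.1.1 := by
    have : Continuous (fun x : ((ℝ × ℝ) × (ℝ × ℝ)) × (ℝ × ℝ) => (x.2, x.1.1)) := by fun_prop
    exact this.continuousAt.eventually
      (isOpen_ne_fun continuous_fst continuous_snd |>.mem_nhds (ne_left_of_notMem h))
  filter_upwards [h2, h3] with x hx2 hx3
  rw [mem_segment_iff, not_or, not_not]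
  exact ⟨hx3, hx2⟩

lemma continuousAt_ang {a b p : ℝ × ℝ} (h : p ∉ segment ℝ a b) :
    ContinuousAt (fun x : ((ℝ × ℝ) × (ℝ × ℝ)) × (ℝ × ℝ) => ang x.1.1 x.1.2 x.2) ((a, b), p) :=
  ContinuousAt.comp (f := fun x : ((ℝ × ℝ) × (ℝ × ℝ)) × (ℝ × ℝ) => quo x.1.1 x.1.2 x.2)
    (g := Complex.arg) (Complex.continuousAt_arg (slit_of_notMem h))
    (continuousAt_quo (ne_left_of_notMem h))

lemma notMem_curve {n : ℕ} {v : ℕ → ℝ × ℝ} {p : ℝ × ℝ} :
    p ∉ curve n v ↔ ∀ i < n, p ∉ segment ℝ (v i) (v ((i + 1) % n)) := by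
  simp [curve, edge]

lemma ctPair (n i : ℕ) : Continuous (fun x : (ℕ → ℝ × ℝ) × (ℝ × ℝ) =>
    (((x.1 i, x.1 ((i + 1) % n)), x.2) : ((ℝ × ℝ) × (ℝ × ℝ)) × (ℝ × ℝ))) := by
  fun_prop

/-- being off the curve is an open condition in the vertices and the point -/
theorem eventually_notMem_curve {n : ℕ} {v : ℕ → ℝ × ℝ} {p : ℝ × ℝ} (h : p ∉ curve n v) :
    ∀ᶠ x : (ℕ → ℝ × ℝ) × (ℝ × ℝ) in 𝓝 (v, p), x.2 ∉ curve n x.1 := by
  rw [notMem_curve] at h
  have : ∀ᶠ x : (ℕ → ℝ × ℝ) × (ℝ × ℝ) in 𝓝 (v, p), ∀ i ∈ Finset.range n,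
      x.2 ∉ segment ℝ (x.1 i) (x.1 ((i + 1) % n)) := by
    rw [Filter.eventually_all_finset]
    intro i hi
    exact (ctPair n i).continuousAt.eventually
      (eventually_notMem_segment (h i (Finset.mem_range.1 hi)))
  filter_upwards [this] with x hx
  rw [notMem_curve]
  intro i hi
  exact hx i (Finset.mem_range.2 hi)

/-- the angle sum is jointly continuous in the vertices and the point -/
theorem continuousAt_angSum {n : ℕ} {v : ℕ → ℝ × ℝ} {p : ℝ × ℝ} (h : p ∉ curve n v) :
    ContinuousAt (fun x : (ℕ → ℝ × ℝ) × (ℝ × ℝ) => angSum n x.1 x.2) (v, p) := by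
  rw [notMem_curve] at h
  unfold angSum
  apply tendsto_finsetSum
  intro i hi
  exact ContinuousAt.comp (g := fun x : ((ℝ × ℝ) × (ℝ × ℝ)) × (ℝ × ℝ) => ang x.1.1 x.1.2 x.2)
    (f := fun x : (ℕ → ℝ × ℝ) × (ℝ × ℝ) =>
      (((x.1 i, x.1 ((i + 1) % n)), x.2) : ((ℝ × ℝ) × (ℝ × ℝ)) × (ℝ × ℝ)))
    (continuousAt_ang (h i (Finset.mem_range.1 hi))) (ctPair n i).continuousAt

lemma exp_ang {a b p : ℝ × ℝ} (ha : p ≠ a) (hb : p ≠ b) :
    Complex.exp (ang a b p * Complex.I) = quo a b p / ‖quo a b p‖ := by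
  have h0 : quo a b p ≠ 0 := by
    unfold quo
    exact div_ne_zero (cx_sub_ne (Ne.symm hb)) (cx_sub_ne (Ne.symm ha))
  have h := Complex.norm_mul_exp_arg_mul_I (quo a b p)
  have h1 : (‖quo a b p‖ : ℂ) ≠ 0 := by exact_mod_cast (norm_pos_iff.2 h0).ne'
  rw [eq_div_iff h1, mul_comm]
  exact h

lemma prod_mod_eq {M : Type*} [CommMonoid M] (n : ℕ) (f : ℕ → M) :
    ∏ i ∈ Finset.range n, f ((i + 1) % n) = ∏ i ∈ Finset.range n, f i := by
  rcases n with _ | m
  · simp
  · rw [Finset.prod_range_succ, Finset.prod_range_succ', Nat.mod_self]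
    congr 1
    apply Finset.prod_congr rfl
    intro i hi
    rw [Nat.mod_eq_of_lt (by have := Finset.mem_range.1 hi; omega)]

lemma sum_mod_eq {M : Type*} [AddCommMonoid M] (n : ℕ) (f : ℕ → M) :
    ∑ i ∈ Finset.range n, f ((i + 1) % n) = ∑ i ∈ Finset.range n, f i := by
  rcases n with _ | m
  · simp
  · rw [Finset.sum_range_succ, Finset.sum_range_succ', Nat.mod_self]
    congr 1
    apply Finset.sum_congr rfl
    intro i hi
    rw [Nat.mod_eq_of_lt (by have := Finset.mem_range.1 hi; omega)]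

lemma ne_vertex {n : ℕ} {v : ℕ → ℝ × ℝ} {p : ℝ × ℝ} (h : p ∉ curve n v) {i : ℕ} (hi : i < n) :
    p ≠ v i := by
  rw [notMem_curve] at h
  exact ne_left_of_notMem (h i hi)

lemma exp_angSum {n : ℕ} {v : ℕ → ℝ × ℝ} {p : ℝ × ℝ} (h : p ∉ curve n v) :
    Complex.exp (angSum n v p * Complex.I) = 1 := by
  have hn : ∀ i ∈ Finset.range n, p ≠ v i := fun i hi => ne_vertex h (Finset.mem_range.1 hi)
  have hn' : ∀ i ∈ Finset.range n, p ≠ v ((i + 1) % n) := fun i hi =>
    ne_vertex h (Nat.mod_lt _ (by have := Finset.mem_range.1 hi; omega))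
  have e1 : (angSum n v p : ℂ) * Complex.I =
      ∑ i ∈ Finset.range n, ((ang (v i) (v ((i + 1) % n)) p : ℝ) : ℂ) * Complex.I := by
    rw [angSum, Complex.ofReal_sum, Finset.sum_mul]
  rw [e1, Complex.exp_sum]
  have e2 : ∏ i ∈ Finset.range n, Complex.exp ((ang (v i) (v ((i + 1) % n)) p : ℝ) * Complex.I) =
      ∏ i ∈ Finset.range n, ((fun j => (cx (v j) - cx p) / (‖cx (v j) - cx p‖ : ℂ)) ((i + 1) % n) /
        (fun j => (cx (v j) - cx p) / (‖cx (v j) - cx p‖ : ℂ)) i) := by
    apply Finset.prod_congr rfl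
    intro i hi
    rw [exp_ang (hn i hi) (hn' i hi)]
    have k1 := cx_sub_ne (Ne.symm (hn i hi))
    have k2 := cx_sub_ne (Ne.symm (hn' i hi))
    have k3 : (‖cx (v i) - cx p‖ : ℂ) ≠ 0 := by exact_mod_cast (norm_pos_iff.2 k1).ne'
    have k4 : (‖cx (v ((i + 1) % n)) - cx p‖ : ℂ) ≠ 0 := by
      exact_mod_cast (norm_pos_iff.2 k2).ne'
    unfold quo
    rw [norm_div]
    push_cast
    field_simp
  rw [e2, Finset.prod_div_distrib,
    prod_mod_eq n (fun j => (cx (v j) - cx p) / (‖cx (v j) - cx p‖ : ℂ)), div_self]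
  rw [Finset.prod_ne_zero_iff]
  intro i hi
  have k1 := cx_sub_ne (Ne.symm (hn i hi))
  have k3 : (‖cx (v i) - cx p‖ : ℂ) ≠ 0 := by exact_mod_cast (norm_pos_iff.2 k1).ne'
  exact div_ne_zero k1 k3

/-- off the curve the angle sum is `2 π` times the winding number -/
theorem angSum_eq {n : ℕ} {v : ℕ → ℝ × ℝ} {p : ℝ × ℝ} (h : p ∉ curve n v) :
    angSum n v p = 2 * π * wind n v p := by
  have h1 := exp_angSum h
  rw [Complex.exp_eq_one_iff] at h1
  obtain ⟨k, hk⟩ := h1
  have h2 : angSum n v p = k * (2 * π) := by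
    have h3 : ((angSum n v p : ℂ) - k * (2 * π)) * Complex.I = 0 := by
      rw [sub_mul, hk]; ring
    rcases mul_eq_zero.1 h3 with h4 | h4
    · have := sub_eq_zero.1 h4
      exact_mod_cast this
    · exact absurd h4 Complex.I_ne_zero
  have hpi : (2 * π) ≠ 0 := by positivity
  have h3 : angSum n v p / (2 * π) = k := by rw [h2]; field_simp
  unfold wind
  rw [h3, round_intCast, h2]; ring

lemma int_eq_of_near {a b : ℤ} {x : ℝ} (ha : |2 * π * a - x| < 1) (hb : |2 * π * b - x| < 1) :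
    a = b := by
  have h1 : |2 * π * ((a : ℝ) - b)| < 2 := by
    have : 2 * π * ((a : ℝ) - b) = (2 * π * a - x) - (2 * π * b - x) := by ring
    rw [this]
    calc _ ≤ |2 * π * a - x| + |2 * π * b - x| := abs_sub _ _
      _ < 2 := by linarith
  have hpi := Real.pi_gt_three
  rw [abs_mul, abs_of_pos (by positivity : (0:ℝ) < 2 * π)] at h1
  have h2 : |((a : ℝ) - b)| < 1 := by
    by_contra h
    push Not at h
    nlinarith
  have h3 : |a - b| < 1 := by exact_mod_cast h2
  have := Int.abs_lt_one_iff.1 h3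
  omega

/-- the winding number is locally constant, jointly in the vertices and the point -/
theorem wind_eventually_joint {n : ℕ} {v : ℕ → ℝ × ℝ} {p : ℝ × ℝ} (h : p ∉ curve n v) :
    ∀ᶠ x : (ℕ → ℝ × ℝ) × (ℝ × ℝ) in 𝓝 (v, p), x.2 ∉ curve n x.1 ∧ wind n x.1 x.2 = wind n v p := by
  have h1 := continuousAt_angSum h
  have h2 : ∀ᶠ x : (ℕ → ℝ × ℝ) × (ℝ × ℝ) in 𝓝 (v, p),
      |angSum n x.1 x.2 - angSum n v p| < 1 := by
    have := Metric.tendsto_nhds.1 h1 1 one_pos
    filter_upwards [this] with x hx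
    rwa [Real.dist_eq] at hx
  filter_upwards [eventually_notMem_curve h, h2] with x hx1 hx2
  refine ⟨hx1, ?_⟩
  apply int_eq_of_near (x := angSum n v p)
  · rwa [← angSum_eq hx1]
  · rw [← angSum_eq h]; simp

theorem wind_eventually {n : ℕ} {v : ℕ → ℝ × ℝ} {p : ℝ × ℝ} (h : p ∉ curve n v) :
    ∀ᶠ q in 𝓝 p, q ∉ curve n v ∧ wind n v q = wind n v p := by
  have hc : Continuous (fun q : ℝ × ℝ => ((v, q) : (ℕ → ℝ × ℝ) × (ℝ × ℝ))) := by fun_prop
  exact hc.continuousAt.eventually (wind_eventually_joint h)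

lemma isCompact_curve (n : ℕ) (v : ℕ → ℝ × ℝ) : IsCompact (curve n v) := by
  have : curve n v = ⋃ i ∈ Finset.range n, segment ℝ (v i) (v ((i + 1) % n)) := by
    ext p; simp [curve, edge]
  rw [this]
  apply Finset.isCompact_biUnion
  intro i _
  rw [← convexHull_pair (𝕜 := ℝ) (v i) (v ((i + 1) % n))]
  exact (Set.toFinite _).isCompact_convexHull ℝ

lemma isClosed_curve (n : ℕ) (v : ℕ → ℝ × ℝ) : IsClosed (curve n v) := (isCompact_curve n v).isClosed

/-- the winding number is constant on connected sets which avoid the curve -/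
theorem wind_const {n : ℕ} {v : ℕ → ℝ × ℝ} {S : Set (ℝ × ℝ)} (hS : IsPreconnected S)
    (hd : Disjoint S (curve n v)) {p q : ℝ × ℝ} (hp : p ∈ S) (hq : q ∈ S) :
    wind n v p = wind n v q := by
  have hc : ContinuousOn (wind n v) S := ?_
  · exact hS.constant hc hp hq
  intro x hx
  have h := wind_eventually (Set.disjoint_left.1 hd hx)
  have : Tendsto (wind n v) (𝓝 x) (𝓝 (wind n v x)) := by
    rw [nhds_discrete ℤ]
    apply tendsto_pure.2
    filter_upwards [h] with y hy
    exact hy.2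
  exact this.mono_left nhdsWithin_le_nhds

lemma tendsto_quo (a b : ℝ × ℝ) :
    Tendsto (fun p => quo a b p) (cocompact (ℝ × ℝ)) (𝓝 1) := by
  have hcx : Tendsto cx (cocompact (ℝ × ℝ)) (cocompact ℂ) := by
    have : IsClosedEmbedding cx := by
      have he : cx = (Complex.equivRealProdCLM.symm : ℝ × ℝ → ℂ) := by
        funext p
        apply Complex.ext <;> simp [cx]
      rw [he]
      exact Complex.equivRealProdCLM.symm.toHomeomorph.isClosedEmbedding
    exact this.tendsto_cocompact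
  have h1 : Tendsto (fun p => cx a - cx p) (cocompact (ℝ × ℝ)) (cocompact ℂ) := by
    have h2 : Tendsto (fun z : ℂ => cx a - z) (cocompact ℂ) (cocompact ℂ) :=
      (Homeomorph.subLeft (cx a)).isClosedEmbedding.tendsto_cocompact
    exact h2.comp hcx
  have h2 : Tendsto (fun p => (cx a - cx p)⁻¹) (cocompact (ℝ × ℝ)) (𝓝 0) :=
    (tendsto_inv₀_cobounded (α := ℂ)).comp (by rwa [Metric.cobounded_eq_cocompact])
  have h3 : Tendsto (fun p => 1 + (cx b - cx a) * (cx a - cx p)⁻¹) (cocompact (ℝ × ℝ)) (𝓝 1) := by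
    have := (h2.const_mul (cx b - cx a)).const_add 1
    simpa using this
  apply h3.congr'
  have h4 : ∀ᶠ p in cocompact (ℝ × ℝ), p ∈ ({a} : Set (ℝ × ℝ))ᶜ :=
    (isCompact_singleton).compl_mem_cocompact
  filter_upwards [h4] with p hp
  have hne : cx a - cx p ≠ 0 := cx_sub_ne (fun h => hp (by simp [h]))
  unfold quo
  field_simp
  ring

/-- far away the winding number vanishes -/
theorem wind_far (n : ℕ) (v : ℕ → ℝ × ℝ) :
    ∀ᶠ p in cocompact (ℝ × ℝ), p ∉ curve n v ∧ wind n v p = 0 := by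
  have h1 : Tendsto (fun p => angSum n v p) (cocompact (ℝ × ℝ)) (𝓝 0) := by
    unfold angSum
    have : (0 : ℝ) = ∑ i ∈ Finset.range n, (0 : ℝ) := by simp
    rw [this]
    apply tendsto_finsetSum
    intro i _
    have h2 := (Complex.continuousAt_arg (x := 1) (by simp)).tendsto.comp
      (tendsto_quo (v i) (v ((i + 1) % n)))
    rw [Complex.arg_one] at h2
    exact h2
  have h2 : ∀ᶠ p in cocompact (ℝ × ℝ), |angSum n v p| < 1 := by
    have := Metric.tendsto_nhds.1 h1 1 one_pos
    filter_upwards [this] with x hx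
    rwa [Real.dist_eq, sub_zero] at hx
  filter_upwards [h2, (isCompact_curve n v).compl_mem_cocompact] with p hp1 hp2
  refine ⟨hp2, ?_⟩
  apply int_eq_of_near (x := 0)
  · rw [sub_zero, ← angSum_eq hp2]; exact hp1
  · simp

end Pool.Agent.H75.PolyJ
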